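import Mathlib

/-!
# Sums of reciprocals of distances to smaller primes: definitions
-/

open Finset

namespace RD69

/-- `f n = ∑_{p < n} 1/(n-p)`. -/
noncomputable def rd (n : ℕ) : ℝ := ∑ p ∈ (range n).filter Nat.Prime, 1 / ((n : ℝ) - p)

/-- The primes in `[u, v]`. -/
def pr (u v : ℕ) : Finset ℕ := (Icc u v).filter Nat.Prime

/-- Montgomery's weights. -/
noncomputable def hw (Ω : ℕ → Finset ℕ) (m : ℕ) : ℝ :=
  ∏ p ∈ m.primeFactors, (#(Ω p) : ℝ) / ((p : ℝ) - #(Ω p))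

/-- The `j ∈ I` such that `n - j` has no prime factor in `[u, z]`. -/
def sv (u z : ℕ) (I : Finset ℕ) (n : ℕ) : Finset ℕ :=
  I.filter fun j => ∀ p ∈ pr u z, ¬ (p : ℤ) ∣ (n : ℤ) - (j : ℤ)

end RD69
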