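import Pool.Agent.LibMaier.Mertens1
import Pool.Agent.LibRD69.Defs

/-!
ROW RK.  Rankin's trick.
PROOF.  The sum over all `T ⊆ P` is `∏ (1 + g p)` (`Finset.prod_one_add` or `Finset.prod_add`).  With
`s = 1 / log z`: the tail (`∏ T > Q`) is at most `∑ T, ∏ g p * ((∏ T p)/Q)^s = Q^(-s) * ∏ (1 + g p * p^s)`.
Here `p^s = exp (log p / log z) ≤ 1 + 2 * log p / log z` (as `log p ≤ log z`; `exp t ≤ 1 + 2 t` on `[0,1]`),
so `1 + g p * p^s ≤ (1 + g p) * exp (g p * (p^s - 1))` and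
`∑ g p * (p^s - 1) ≤ (4 r / log z) * ∑_{p ≤ z} log p / p ≤ 4 r (1 + K / log 2)` by
`Pool.Agent.LibMaier.mertens_first` (`TN N = ∑ p ∈ PN N, log p / p`).  `Q^(-s) ≤ exp (-(C * r))`.
Take `C` larger than `4 (1 + K / log 2) + 1`: tail `≤ exp (-r) ∏ (1 + g) ≤ (1/2) ∏ (1 + g)`.
-/

open Finset

namespace RD69

theorem RK_exp {t : ℝ} (h0 : 0 ≤ t) (h1 : t ≤ 1) : Real.exp t ≤ 1 + 2 * t := by
  have h := Real.abs_exp_sub_one_sub_id_le (x := t) (by rw [abs_of_nonneg h0]; exact h1)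
  have h2 := (abs_le.mp h).2
  nlinarith

theorem rankin : ∃ C : ℕ, 1 ≤ C ∧ ∀ (r z Q : ℕ) (P : Finset ℕ) (g : ℕ → ℝ), 1 ≤ r → 2 ≤ z →
    (∀ p ∈ P, p.Prime ∧ p ≤ z ∧ 0 ≤ g p ∧ g p ≤ 2 * r / p) → z ^ (C * r) ≤ Q →
    (1 / 2) * ∏ p ∈ P, (1 + g p) ≤
      ∑ T ∈ P.powerset.filter (fun T => ∏ p ∈ T, p ≤ Q), ∏ p ∈ T, g p := by
  obtain ⟨K, hK, hM⟩ := Pool.Agent.LibMaier.mertens_first
  have hlog2 : 0 < Real.log 2 := Real.log_pos (by norm_num)
  have hCpos : 0 < 4 * (1 + K / Real.log 2) + 1 := by positivity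
  refine ⟨⌈4 * (1 + K / Real.log 2) + 1⌉₊, Nat.one_le_iff_ne_zero.mpr (by
    have := Nat.ceil_pos.mpr hCpos
    omega), ?_⟩
  intro r z Q P g hr hz hP hQ
  have hCle := Nat.le_ceil (4 * (1 + K / Real.log 2) + 1)
  generalize ⌈4 * (1 + K / Real.log 2) + 1⌉₊ = C at hQ hCle
  have hz' : (2:ℝ) ≤ z := by exact_mod_cast hz
  have hr' : (1:ℝ) ≤ r := by exact_mod_cast hr
  have hlz2 : Real.log 2 ≤ Real.log z := Real.log_le_log (by norm_num) hz'
  have hlz : 0 < Real.log z := lt_of_lt_of_le hlog2 hlz2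
  have hQ1 : 1 ≤ Q := le_trans (Nat.one_le_pow _ _ (by omega)) hQ
  have hQ0 : (0:ℝ) < Q := by exact_mod_cast hQ1
  have hg0 : ∀ p ∈ P, 0 ≤ g p := fun p hp => (hP p hp).2.2.1
  -- the total
  have htot : ∏ p ∈ P, (1 + g p) = ∑ T ∈ P.powerset, ∏ p ∈ T, g p := Finset.prod_one_add P
  have hsplit : ∑ T ∈ P.powerset, ∏ p ∈ T, g p =
      ∑ T ∈ P.powerset.filter (fun T => ∏ p ∈ T, p ≤ Q), ∏ p ∈ T, g p +
      ∑ T ∈ P.powerset.filter (fun T => ¬ ∏ p ∈ T, p ≤ Q), ∏ p ∈ T, g p :=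
    (Finset.sum_filter_add_sum_filter_not _ _ _).symm
  -- the tail
  obtain ⟨s, hs⟩ : ∃ s : ℝ, s = 1 / Real.log z := ⟨_, rfl⟩
  have hs0 : 0 < s := by rw [hs]; positivity
  have htail : ∑ T ∈ P.powerset.filter (fun T => ¬ ∏ p ∈ T, p ≤ Q), ∏ p ∈ T, g p ≤
      (Q:ℝ) ^ (-s) * ∏ p ∈ P, (1 + g p * (p:ℝ) ^ s) := by
    rw [Finset.prod_one_add, Finset.mul_sum]
    have h1 : ∑ T ∈ P.powerset.filter (fun T => ¬ ∏ p ∈ T, p ≤ Q), ∏ p ∈ T, g p ≤
        ∑ T ∈ P.powerset.filter (fun T => ¬ ∏ p ∈ T, p ≤ Q), (Q:ℝ) ^ (-s) * ∏ p ∈ T, (g p * (p:ℝ) ^ s) := by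
      refine Finset.sum_le_sum ?_
      intro T hT
      rw [Finset.mem_filter, Finset.mem_powerset, not_le] at hT
      obtain ⟨hTP, hTQ⟩ := hT
      rw [Finset.prod_mul_distrib]
      have e1 : ∏ p ∈ T, (p:ℝ) ^ s = ((∏ p ∈ T, p : ℕ) : ℝ) ^ s := by
        rw [Nat.cast_prod]
        exact Real.finsetProd_rpow T (fun p => (p:ℝ)) (fun p _ => Nat.cast_nonneg p) s
      rw [e1]
      have h2 : (Q:ℝ) ^ s ≤ ((∏ p ∈ T, p : ℕ) : ℝ) ^ s := by
        refine Real.rpow_le_rpow hQ0.le ?_ hs0.le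
        exact_mod_cast hTQ.le
      have h3 : (Q:ℝ) ^ (-s) * (Q:ℝ) ^ s = 1 := by
        rw [← Real.rpow_add hQ0]; simp
      have h4 : 1 ≤ (Q:ℝ) ^ (-s) * ((∏ p ∈ T, p : ℕ) : ℝ) ^ s := by
        rw [← h3]
        exact mul_le_mul_of_nonneg_left h2 (Real.rpow_nonneg hQ0.le _)
      have h5 : 0 ≤ ∏ p ∈ T, g p := Finset.prod_nonneg (fun p hp => hg0 p (hTP hp))
      have h6 := mul_le_mul_of_nonneg_left h4 h5
      rw [mul_one] at h6
      refine h6.trans (le_of_eq ?_)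
      ring
    refine h1.trans ?_
    refine Finset.sum_le_sum_of_subset_of_nonneg (Finset.filter_subset _ _) ?_
    intro T hT _
    rw [Finset.mem_powerset] at hT
    refine mul_nonneg (Real.rpow_nonneg hQ0.le _) (Finset.prod_nonneg ?_)
    intro p hp
    exact mul_nonneg (hg0 p (hT hp)) (Real.rpow_nonneg (Nat.cast_nonneg p) _)
  -- the Euler factors
  have hps : ∀ p ∈ P, 0 ≤ (p:ℝ) ^ s - 1 ∧ g p * ((p:ℝ) ^ s - 1) ≤ 4 * r / Real.log z * (Real.log p / p) := by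
    intro p hp
    obtain ⟨hpp, hpz, hg1, hg2⟩ := hP p hp
    have hp1 : (1:ℝ) ≤ p := by exact_mod_cast hpp.one_lt.le
    have hp0 : (0:ℝ) < p := by linarith
    have hlp : 0 ≤ Real.log p := Real.log_nonneg hp1
    have hlpz : Real.log p ≤ Real.log z := Real.log_le_log hp0 (by exact_mod_cast hpz)
    have e : (p:ℝ) ^ s = Real.exp (Real.log p * s) := Real.rpow_def_of_pos hp0 s
    have ht0 : 0 ≤ Real.log p * s := mul_nonneg hlp hs0.le
    have ht1 : Real.log p * s ≤ 1 := by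
      rw [hs, mul_one_div, div_le_one hlz]; exact hlpz
    have h1 : 0 ≤ (p:ℝ) ^ s - 1 := by
      rw [e]; linarith [Real.add_one_le_exp (Real.log p * s)]
    refine ⟨h1, ?_⟩
    have h2 : (p:ℝ) ^ s - 1 ≤ 2 * (Real.log p * s) := by
      rw [e]; linarith [RK_exp ht0 ht1]
    have h3 : g p * ((p:ℝ) ^ s - 1) ≤ (2 * r / p) * (2 * (Real.log p * s)) :=
      mul_le_mul hg2 h2 h1 (by positivity)
    refine h3.trans (le_of_eq ?_)
    rw [hs]
    ring
  have hprod : ∏ p ∈ P, (1 + g p * (p:ℝ) ^ s) ≤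
      (∏ p ∈ P, (1 + g p)) * Real.exp (∑ p ∈ P, g p * ((p:ℝ) ^ s - 1)) := by
    rw [Real.exp_sum, ← Finset.prod_mul_distrib]
    refine Finset.prod_le_prod ?_ ?_
    · intro p hp
      have := mul_nonneg (hg0 p hp) (Real.rpow_nonneg (Nat.cast_nonneg p) s)
      linarith
    · intro p hp
      obtain ⟨h1, _⟩ := hps p hp
      have h2 := hg0 p hp
      have h3 := Real.add_one_le_exp (g p * ((p:ℝ) ^ s - 1))
      have h4 : 0 ≤ g p * ((p:ℝ) ^ s - 1) := mul_nonneg h2 h1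
      have h5 : (1 + g p) * (g p * ((p:ℝ) ^ s - 1) + 1) ≤ (1 + g p) * Real.exp (g p * ((p:ℝ) ^ s - 1)) :=
        mul_le_mul_of_nonneg_left h3 (by linarith)
      nlinarith [mul_nonneg h2 h4]
  have hsum : ∑ p ∈ P, g p * ((p:ℝ) ^ s - 1) ≤ 4 * r * (1 + K / Real.log 2) := by
    have h1 : ∑ p ∈ P, g p * ((p:ℝ) ^ s - 1) ≤ ∑ p ∈ P, 4 * r / Real.log z * (Real.log p / p) :=
      Finset.sum_le_sum (fun p hp => (hps p hp).2)
    have h2 : ∑ p ∈ P, 4 * r / Real.log z * (Real.log p / p) ≤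
        ∑ p ∈ Pool.Agent.LibMaier.PN z, 4 * r / Real.log z * (Real.log p / p) := by
      refine Finset.sum_le_sum_of_subset_of_nonneg ?_ ?_
      · intro p hp
        exact Pool.Agent.LibMaier.mem_PN.mpr ⟨(hP p hp).2.1, (hP p hp).1⟩
      · intro p hp _
        have hpp := (Pool.Agent.LibMaier.mem_PN.mp hp).2
        have hp1 : (1:ℝ) ≤ p := by exact_mod_cast hpp.one_lt.le
        have := Real.log_nonneg hp1
        positivity
    have h3 := hM z (by linarith)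
    rw [Nat.floor_natCast] at h3
    have h4 := (abs_le.mp h3).2
    have h2' := h1.trans h2
    rw [← Finset.mul_sum] at h2'
    have h5 : (∑ p ∈ Pool.Agent.LibMaier.PN z, (Real.log p / p)) = Pool.Agent.LibMaier.TN z := rfl
    rw [h5] at h2'
    have h6 : Pool.Agent.LibMaier.TN z ≤ Real.log z + K := by linarith
    have h7 : 4 * r / Real.log z * Pool.Agent.LibMaier.TN z ≤ 4 * r / Real.log z * (Real.log z + K) :=
      mul_le_mul_of_nonneg_left h6 (by positivity)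
    have h8 : 4 * r / Real.log z * (Real.log z + K) = 4 * r * (1 + K / Real.log z) := by
      field_simp
    have h9 : K / Real.log z ≤ K / Real.log 2 := div_le_div_of_nonneg_left hK.le hlog2 hlz2
    have h10 : 4 * (r:ℝ) * (1 + K / Real.log z) ≤ 4 * r * (1 + K / Real.log 2) :=
      mul_le_mul_of_nonneg_left (by linarith) (by positivity)
    linarith
  have hQs : (Q:ℝ) ^ (-s) ≤ Real.exp (-(C * r)) := by
    rw [Real.rpow_def_of_pos hQ0, Real.exp_le_exp]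
    have h1 : Real.log ((z:ℝ) ^ (C * r)) ≤ Real.log Q := by
      refine Real.log_le_log (by positivity) ?_
      exact_mod_cast hQ
    rw [Real.log_pow] at h1
    push_cast at h1
    have h2 : (C:ℝ) * r * Real.log z * s = C * r := by
      rw [hs]; field_simp
    have h3 := mul_le_mul_of_nonneg_right h1 hs0.le
    rw [h2] at h3
    linarith
  have hP0 : 0 ≤ ∏ p ∈ P, (1 + g p) := Finset.prod_nonneg (fun p hp => by have := hg0 p hp; linarith)
  have hfin : (Q:ℝ) ^ (-s) * ∏ p ∈ P, (1 + g p * (p:ℝ) ^ s) ≤ (1/2) * ∏ p ∈ P, (1 + g p) := by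
    have h1 : (Q:ℝ) ^ (-s) * ∏ p ∈ P, (1 + g p * (p:ℝ) ^ s) ≤
        Real.exp (-(C * r)) * ((∏ p ∈ P, (1 + g p)) * Real.exp (4 * r * (1 + K / Real.log 2))) := by
      refine mul_le_mul hQs (hprod.trans (mul_le_mul_of_nonneg_left (Real.exp_le_exp.mpr hsum) hP0)) ?_ (Real.exp_pos _).le
      refine Finset.prod_nonneg (fun p hp => ?_)
      have := mul_nonneg (hg0 p hp) (Real.rpow_nonneg (Nat.cast_nonneg p) s)
      linarith
    have h2 : Real.exp (-(C * r)) * ((∏ p ∈ P, (1 + g p)) * Real.exp (4 * r * (1 + K / Real.log 2))) =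
        Real.exp (-(C * r) + 4 * r * (1 + K / Real.log 2)) * ∏ p ∈ P, (1 + g p) := by
      rw [Real.exp_add]; ring
    have h3 : -((C:ℝ) * r) + 4 * r * (1 + K / Real.log 2) ≤ -1 := by
      have h4 := mul_le_mul_of_nonneg_right hCle (by linarith : (0:ℝ) ≤ r)
      nlinarith
    have h5 : Real.exp (-(C * r) + 4 * r * (1 + K / Real.log 2)) ≤ 1 / 2 := by
      refine (Real.exp_le_exp.mpr h3).trans ?_
      rw [Real.exp_neg, inv_le_comm₀ (Real.exp_pos _) (by norm_num)]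
      have := Real.exp_one_gt_d9
      norm_num at this ⊢
      linarith
    rw [h2] at h1
    exact h1.trans (mul_le_mul_of_nonneg_right h5 hP0)
  have hT := htail.trans hfin
  rw [← htot] at hsplit
  linarith

end RD69
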