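import Pool.Agent.LibRD69.M3
import Pool.Agent.LibRD69.RK

/-!
ROW SU.  Upper bound sieve of dimension `r`, uniform in `r`.
PROOF.  `C = 2 C'` with `C'` from `rankin`, `Q = Nat.sqrt N` (so `Q^2 ≤ N` and `z^(C' r) ≤ Q` by
`Nat.le_sqrt`), `g p = #(Ω p)/(p - #(Ω p))`; since `2 r ≤ p` and `#(Ω p) ≤ r` we have `g p ≤ 2 r / p`.
`M = image of {T ⊆ P : ∏ T ≤ Q} under T ↦ ∏ p ∈ T, p`; the map is injective, `∏ T` is squarefree with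
`primeFactors = T` (`Nat.primeFactors_prod`), `hw Ω (∏ T) = ∏ p ∈ T, g p`.  `als` gives
`(1/2) ∏ (1 + g p) * #s ≤ 9 N`, and `(1 + g p)⁻¹ = 1 - #(Ω p)/p`.
-/

open Finset LSieve

namespace RD69

theorem SU_sqf {T : Finset ℕ} (hT : ∀ p ∈ T, p.Prime) : Squarefree (∏ p ∈ T, p) := by
  classical
  induction T using Finset.induction_on with
  | empty => simp
  | insert a T ha ih =>
    rw [Finset.prod_insert ha]
    have hT' : ∀ p ∈ T, p.Prime := fun p hp => hT p (Finset.mem_insert_of_mem hp)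
    have hap : a.Prime := hT a (Finset.mem_insert_self _ _)
    have hco : Nat.Coprime a (∏ p ∈ T, p) := by
      apply Nat.Coprime.prod_right
      intro p hp
      rw [Nat.coprime_primes hap (hT' p hp)]
      rintro rfl
      exact ha hp
    rw [Nat.squarefree_mul hco]
    exact ⟨hap.squarefree, ih hT'⟩

theorem sieve_ub : ∃ C : ℕ, 1 ≤ C ∧ ∀ (r z N : ℕ) (P : Finset ℕ) (Ω : ℕ → Finset ℕ),
    1 ≤ r → 2 ≤ z →
    (∀ p ∈ P, p.Prime ∧ 2 * r ≤ p ∧ p ≤ z ∧ #(Ω p) ≤ r ∧ ∀ h ∈ Ω p, h < p) →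
    z ^ (C * r) ≤ N → ∀ (A : ℤ) (s : Finset ℤ), s ⊆ Ico A (A + N) →
      (∀ p ∈ P, ∀ n ∈ s, ∀ h ∈ Ω p, ¬ n ≡ (h : ℤ) [ZMOD p]) →
      (#s : ℝ) ≤ 18 * N * ∏ p ∈ P, (1 - (#(Ω p) : ℝ) / p) := by
  classical
  obtain ⟨C', hC', hrk⟩ := rankin
  refine ⟨2 * C', by omega, ?_⟩
  intro r z N P Ω hr hz hP hN A s hs hf
  have hQ1 : Nat.sqrt N ^ 2 ≤ N := Nat.sqrt_le' N
  have hQ2 : z ^ (C' * r) ≤ Nat.sqrt N := by
    rw [Nat.le_sqrt', ← pow_mul]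
    have : C' * r * 2 = 2 * C' * r := by ring
    rw [this]
    exact hN
  have hN0 : 0 < N := lt_of_lt_of_le (Nat.pow_pos (by omega)) hN
  have hP0 : ∀ p ∈ P, (0 : ℝ) < p ∧ (#(Ω p) : ℝ) ≤ p / 2 ∧ (#(Ω p) : ℝ) ≤ r := by
    intro p hp
    obtain ⟨h1, h2, _, h4, _⟩ := hP p hp
    have h5 : (0 : ℝ) < p := by exact_mod_cast h1.pos
    have h6 : (2 : ℝ) * r ≤ p := by exact_mod_cast h2
    have h7 : (#(Ω p) : ℝ) ≤ r := by exact_mod_cast h4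
    exact ⟨h5, by linarith, h7⟩
  have hg : ∀ p ∈ P, 0 ≤ (#(Ω p) : ℝ) / ((p : ℝ) - #(Ω p)) ∧
      (#(Ω p) : ℝ) / ((p : ℝ) - #(Ω p)) ≤ 2 * r / p := by
    intro p hp
    obtain ⟨h1, h2, h3⟩ := hP0 p hp
    have h4 : (0 : ℝ) < p - #(Ω p) := by linarith
    have h0 : (0 : ℝ) ≤ #(Ω p) := Nat.cast_nonneg _
    refine ⟨div_nonneg h0 h4.le, ?_⟩
    rw [div_le_div_iff₀ h4 h1]
    nlinarith
  have hrk2 := hrk r z (Nat.sqrt N) P (fun p => (#(Ω p) : ℝ) / ((p : ℝ) - #(Ω p))) hr hz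
    (fun p hp => ⟨(hP p hp).1, (hP p hp).2.2.1, (hg p hp).1, (hg p hp).2⟩) hQ2
  set F : Finset (Finset ℕ) := P.powerset.filter (fun T => ∏ p ∈ T, p ≤ Nat.sqrt N) with hF
  have hFp : ∀ T ∈ F, ∀ p ∈ T, p ∈ P := by
    intro T hT p hp
    rw [hF, Finset.mem_filter, Finset.mem_powerset] at hT
    exact hT.1 hp
  have hpf : ∀ T ∈ F, (∏ p ∈ T, p).primeFactors = T := by
    intro T hT
    exact Nat.primeFactors_prod fun p hp => (hP p (hFp T hT p hp)).1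
  have hinj : ∀ T ∈ F, ∀ T' ∈ F, ∏ p ∈ T, p = ∏ p ∈ T', p → T = T' := by
    intro T hT T' hT' h
    rw [← hpf T hT, h, hpf T' hT']
  have hM : ∀ m ∈ F.image (fun T => ∏ p ∈ T, p), Squarefree m ∧ m ≤ Nat.sqrt N ∧
      ∀ p ∈ m.primeFactors, (∀ h ∈ Ω p, h < p) ∧ #(Ω p) < p := by
    intro m hm
    rw [Finset.mem_image] at hm
    obtain ⟨T, hT, rfl⟩ := hm
    refine ⟨SU_sqf fun p hp => (hP p (hFp T hT p hp)).1, ?_, ?_⟩
    · rw [hF, Finset.mem_filter] at hT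
      exact hT.2
    · intro p hp
      rw [hpf T hT] at hp
      obtain ⟨_, h2, _, h4, h5⟩ := hP p (hFp T hT p hp)
      exact ⟨h5, by omega⟩
  have hals := als Ω (F.image (fun T => ∏ p ∈ T, p)) (Nat.sqrt N) N hN0 hQ1 hM A s hs (by
    intro m hm p hp n hn h hh
    rw [Finset.mem_image] at hm
    obtain ⟨T, hT, rfl⟩ := hm
    rw [hpf T hT] at hp
    exact hf p (hFp T hT p hp) n hn h hh)
  have hsum : ∑ m ∈ F.image (fun T => ∏ p ∈ T, p), hw Ω m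
      = ∑ T ∈ F, ∏ p ∈ T, (#(Ω p) : ℝ) / ((p : ℝ) - #(Ω p)) := by
    rw [Finset.sum_image (fun T hT T' hT' h => hinj T hT T' hT' h)]
    apply Finset.sum_congr rfl
    intro T hT
    rw [hw, hpf T hT]
  rw [hsum] at hals
  have hs0 : (0 : ℝ) ≤ #s := Nat.cast_nonneg _
  have h1 : (1 / 2) * (∏ p ∈ P, (1 + (#(Ω p) : ℝ) / ((p : ℝ) - #(Ω p)))) * #s ≤ 9 * N :=
    (mul_le_mul_of_nonneg_right hrk2 hs0).trans hals
  have h2 : (∏ p ∈ P, (1 + (#(Ω p) : ℝ) / ((p : ℝ) - #(Ω p))))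
      * ∏ p ∈ P, (1 - (#(Ω p) : ℝ) / p) = 1 := by
    rw [← Finset.prod_mul_distrib]
    apply Finset.prod_eq_one
    intro p hp
    obtain ⟨h1, h2, h3⟩ := hP0 p hp
    have h4 : (p : ℝ) - #(Ω p) ≠ 0 := by linarith
    have h5 : (p : ℝ) ≠ 0 := h1.ne'
    field_simp
    ring
  have h3 : 0 ≤ ∏ p ∈ P, (1 - (#(Ω p) : ℝ) / p) := by
    apply Finset.prod_nonneg
    intro p hp
    obtain ⟨h1, h2, h3⟩ := hP0 p hp
    rw [sub_nonneg, div_le_one h1]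
    linarith
  calc (#s : ℝ) = #s * ((∏ p ∈ P, (1 + (#(Ω p) : ℝ) / ((p : ℝ) - #(Ω p))))
      * ∏ p ∈ P, (1 - (#(Ω p) : ℝ) / p)) := by rw [h2, mul_one]
    _ = 2 * ((1 / 2) * (∏ p ∈ P, (1 + (#(Ω p) : ℝ) / ((p : ℝ) - #(Ω p)))) * #s)
        * ∏ p ∈ P, (1 - (#(Ω p) : ℝ) / p) := by ring
    _ ≤ 2 * (9 * N) * ∏ p ∈ P, (1 - (#(Ω p) : ℝ) / p) := by
        apply mul_le_mul_of_nonneg_right _ h3
        linarith
    _ = 18 * N * ∏ p ∈ P, (1 - (#(Ω p) : ℝ) / p) := by ring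

end RD69
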