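import Pool.Agent.LibRD69.Defs

/-!
ROW AB.  Abel summation.
PROOF.  `A j = #(E.filter (1 ≤ i ≤ j))`, `A j ≤ j`.  `∑_{U ≤ i < V} 1_E(i)/i ≤ A(V-1)/(V-1) + ∑_{i=U}^{V-2} A(i) (1/i - 1/(i+1))
≤ 1 + ∑_{i<j₀} 1 + κ ∑_{max(U,j₀) ≤ i < V} 1/((i+1) log i)`; and `1/((i+1) log i) ≤ log log i - log log (i-1)` for `i ≥ 3`
up to a bounded total error (the term `i` against the integral of `1/(t log t)` over `[i-1, i]`, the first term separately;
e.g. `1/(i log i) ≤ loglog i - loglog (i-1)` since `log(log i/log(i-1)) ≥ 1 - log(i-1)/log i ≥ (1/i)/log i`).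
`K` depends only on `κ` and `j₀`.
-/

open Finset

namespace RD69

theorem AB_step (i : ℕ) (hi : 2 ≤ i) : 1 / (((i : ℝ) + 1) * Real.log i) ≤
    Real.log (Real.log ((i : ℝ) + 1)) - Real.log (Real.log i) +
      (Real.log 2)⁻¹ ^ 2 * (1 / (i : ℝ) - 1 / ((i : ℝ) + 1)) := by
  have hi2 : (2 : ℝ) ≤ i := by exact_mod_cast hi
  have hi0 : (0 : ℝ) < i := by linarith
  have hl2 : 0 < Real.log 2 := Real.log_pos (by norm_num)
  have ha : Real.log 2 ≤ Real.log i := Real.log_le_log (by norm_num) hi2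
  have hab : Real.log i ≤ Real.log ((i : ℝ) + 1) := Real.log_le_log hi0 (by linarith)
  set a := Real.log (i : ℝ) with hA
  set b := Real.log ((i : ℝ) + 1) with hB
  have ha0 : 0 < a := by linarith
  have hb0 : 0 < b := by linarith
  have h1 : b - a ≤ 1 / i := by
    have h := Real.log_le_sub_one_of_pos (show 0 < ((i : ℝ) + 1) / i by positivity)
    rw [Real.log_div (by positivity) hi0.ne'] at h
    have h2 : ((i : ℝ) + 1) / i - 1 = 1 / i := by field_simp; ring
    linarith
  have h2 : 1 / ((i : ℝ) + 1) ≤ b - a := by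
    have h := Real.log_le_sub_one_of_pos (show 0 < (i : ℝ) / ((i : ℝ) + 1) by positivity)
    rw [Real.log_div hi0.ne' (by positivity)] at h
    have h2 : (i : ℝ) / ((i : ℝ) + 1) - 1 = -(1 / ((i : ℝ) + 1)) := by field_simp; ring
    linarith
  have h3 : (b - a) / b ≤ Real.log b - Real.log a := by
    have h := Real.log_le_sub_one_of_pos (show 0 < a / b by positivity)
    rw [Real.log_div ha0.ne' hb0.ne'] at h
    have h2 : a / b - 1 = -((b - a) / b) := by field_simp; ring
    linarith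
  have h4 : 1 / (((i : ℝ) + 1) * b) ≤ (b - a) / b := by
    rw [← div_div]
    exact div_le_div_of_nonneg_right h2 hb0.le
  have h5 : 1 / (((i : ℝ) + 1) * a) - 1 / (((i : ℝ) + 1) * b) =
      (b - a) / (((i : ℝ) + 1) * (a * b)) := by
    field_simp
  have h6 : (b - a) / (((i : ℝ) + 1) * (a * b)) ≤
      (Real.log 2)⁻¹ ^ 2 * (1 / (i : ℝ) - 1 / ((i : ℝ) + 1)) := by
    have h7 : (Real.log 2)⁻¹ ^ 2 * (1 / (i : ℝ) - 1 / ((i : ℝ) + 1)) =
        (1 / i) / (((i : ℝ) + 1) * (Real.log 2 * Real.log 2)) := by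
      field_simp
      ring
    rw [h7]
    have h8 : Real.log 2 * Real.log 2 ≤ a * b :=
      mul_le_mul ha (ha.trans hab) hl2.le ha0.le
    exact div_le_div₀ (by positivity) h1 (by positivity)
      (mul_le_mul_of_nonneg_left h8 (by positivity))
  linarith

theorem abel_tail (κ : ℝ) (hκ : 0 < κ) (j₀ : ℕ) (hj : 2 ≤ j₀) : ∃ K : ℝ, 0 < K ∧ ∀ (E : Finset ℕ),
    (∀ j : ℕ, j₀ ≤ j → (#(E.filter fun i => 1 ≤ i ∧ i ≤ j) : ℝ) ≤ κ * j / Real.log j) →
    ∀ U V : ℕ, 2 ≤ U → U ≤ V →
      ∑ i ∈ E.filter (fun i => U ≤ i ∧ i < V), 1 / (i : ℝ) ≤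
        κ * (Real.log (Real.log V) - Real.log (Real.log U)) + K := by
  have hl2 : 0 < Real.log 2 := Real.log_pos (by norm_num)
  set c : ℝ := (Real.log 2)⁻¹ ^ 2 with hc
  have hc0 : 0 < c := by positivity
  refine ⟨1 + j₀ + κ * c, by positivity, fun E hE U V hU hUV => ?_⟩
  set A : ℕ → ℝ := fun n => ∑ i ∈ Ico 1 n, if i ∈ E then 1 else 0 with hA
  have hA0 : ∀ n, 0 ≤ A n := fun n => Finset.sum_nonneg fun i _ => by split_ifs <;> norm_num
  have hAle : ∀ n, A n ≤ n := by
    intro n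
    calc A n ≤ ∑ i ∈ Ico 1 n, (1 : ℝ) := Finset.sum_le_sum fun i _ => by split_ifs <;> norm_num
      _ = ((n - 1 : ℕ) : ℝ) := by simp
      _ ≤ n := by exact_mod_cast Nat.sub_le n 1
  have hAE : ∀ j, j₀ ≤ j → A (j + 1) ≤ κ * j / Real.log j := by
    intro j hj'
    have h1 : A (j + 1) = (#(E.filter fun i => 1 ≤ i ∧ i ≤ j) : ℝ) := by
      rw [hA]
      simp only
      rw [← Finset.sum_filter, Finset.sum_const, nsmul_eq_mul, mul_one]
      congr 2
      ext i
      simp only [mem_filter, mem_Ico]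
      constructor
      · rintro ⟨⟨h1, h2⟩, h3⟩; exact ⟨h3, h1, by omega⟩
      · rintro ⟨h3, h1, h2⟩; exact ⟨⟨h1, by omega⟩, h3⟩
    rw [h1]
    exact hE j hj'
  have hS : ∀ W, ∑ i ∈ E.filter (fun i => U ≤ i ∧ i < W), 1 / (i : ℝ) =
      ∑ i ∈ Ico U W, if i ∈ E then 1 / (i : ℝ) else 0 := by
    intro W
    rw [← Finset.sum_filter]
    refine Finset.sum_congr ?_ fun _ _ => rfl
    ext i
    simp only [mem_filter, mem_Ico]
    tauto
  rw [hS]
  have key : ∀ W, U ≤ W → (∑ i ∈ Ico U W, if i ∈ E then 1 / (i : ℝ) else 0) ≤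
      A W / W + ((min W j₀ : ℕ) : ℝ) +
        κ * (Real.log (Real.log W) - Real.log (Real.log U) + c * (1 / (U : ℝ) - 1 / W)) := by
    intro W hW
    induction W, hW using Nat.le_induction with
    | base =>
      rw [Ico_self, sum_empty, sub_self, sub_self, mul_zero, add_zero, mul_zero, add_zero]
      have := hA0 U
      positivity
    | succ W hW ih =>
      have hW2 : 2 ≤ W := hU.trans hW
      have hWr : (2 : ℝ) ≤ W := by exact_mod_cast hW2
      have hW0 : (0 : ℝ) < W := by linarith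
      rw [Finset.sum_Ico_succ_top hW]
      have h1 : A (W + 1) = A W + if W ∈ E then 1 else 0 := by
        rw [hA]
        simp only
        rw [Finset.sum_Ico_succ_top (by omega)]
      have h2 : (if W ∈ E then 1 / (W : ℝ) else 0) = A (W + 1) / W - A W / W := by
        rw [h1]
        split_ifs <;> ring
      have h3 : A (W + 1) / W = A (W + 1) / (W + 1) + A (W + 1) / (W * (W + 1)) := by
        field_simp
      have h4 := AB_step W hW2
      have hlW : 0 < Real.log W := Real.log_pos (by linarith)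
      have h5 : 0 < 1 / (((W : ℝ) + 1) * Real.log W) := by positivity
      have h6 : A (W + 1) / (W * (W + 1)) ≤ ((min (W + 1) j₀ : ℕ) : ℝ) - ((min W j₀ : ℕ) : ℝ) +
          κ * (Real.log (Real.log ((W : ℝ) + 1)) - Real.log (Real.log W) +
            c * (1 / (W : ℝ) - 1 / ((W : ℝ) + 1))) := by
        have h7 : κ * (1 / (((W : ℝ) + 1) * Real.log W)) ≤
            κ * (Real.log (Real.log ((W : ℝ) + 1)) - Real.log (Real.log W) +
              c * (1 / (W : ℝ) - 1 / ((W : ℝ) + 1))) := mul_le_mul_of_nonneg_left h4 hκ.le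
        have h7' : 0 < κ * (1 / (((W : ℝ) + 1) * Real.log W)) := mul_pos hκ h5
        rcases Nat.lt_or_ge W j₀ with h | h
        · rw [min_eq_left (by omega : W + 1 ≤ j₀), min_eq_left h.le]
          have h8 : A (W + 1) / (W * (W + 1)) ≤ 1 := by
            rw [div_le_one (by positivity)]
            have := hAle (W + 1)
            push_cast at this ⊢
            nlinarith
          push_cast
          linarith
        · rw [min_eq_right (by omega : j₀ ≤ W + 1), min_eq_right h, sub_self, zero_add]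
          refine le_trans ?_ h7
          have h8 := hAE W h
          have h9 : A (W + 1) / (W * (W + 1)) ≤ (κ * W / Real.log W) / (W * (W + 1)) :=
            div_le_div_of_nonneg_right h8 (by positivity)
          refine h9.trans (le_of_eq ?_)
          field_simp
      have e : ((W + 1 : ℕ) : ℝ) = (W : ℝ) + 1 := by push_cast; ring
      rw [h2, h3, e]
      have h10 : κ * (Real.log (Real.log ((W : ℝ) + 1)) - Real.log (Real.log U) +
            c * (1 / (U : ℝ) - 1 / ((W : ℝ) + 1))) =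
          κ * (Real.log (Real.log W) - Real.log (Real.log U) + c * (1 / (U : ℝ) - 1 / W)) +
          κ * (Real.log (Real.log ((W : ℝ) + 1)) - Real.log (Real.log W) +
            c * (1 / (W : ℝ) - 1 / ((W : ℝ) + 1))) := by ring
      rw [h10]
      linarith
  have hVr : (2 : ℝ) ≤ V := by exact_mod_cast hU.trans hUV
  have hUr : (2 : ℝ) ≤ U := by exact_mod_cast hU
  refine (key V hUV).trans ?_
  have h1 : A V / V ≤ 1 := by
    rw [div_le_one (by linarith)]
    exact hAle V
  have h2 : ((min V j₀ : ℕ) : ℝ) ≤ j₀ := by exact_mod_cast min_le_right V j₀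
  have h3 : 1 / (U : ℝ) - 1 / V ≤ 1 := by
    have h4 : 1 / (U : ℝ) ≤ 1 := by
      rw [div_le_one (by linarith)]; linarith
    have h5 : 0 ≤ 1 / (V : ℝ) := by positivity
    linarith
  have h4 : c * (1 / (U : ℝ) - 1 / V) ≤ c * 1 := mul_le_mul_of_nonneg_left h3 hc0.le
  have h5 : κ * (c * (1 / (U : ℝ) - 1 / V)) ≤ κ * (c * 1) := mul_le_mul_of_nonneg_left h4 hκ.le
  linarith

end RD69
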