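import Pool.Agent.LibRD69.Defs

/-!
ROW CR.  Chinese remainder count.
PROOF.  Induction on `P` (`Finset.induction_on`): for `q ∉ P` prime, `a ↦ (a % q, a % ∏ P)` is a bijection
of `range (q * ∏ P)` with `range q ×ˢ range (∏ P)` (`Nat.chineseRemainder`, or
`Nat.Coprime` + `ZMod.chineseRemainder`), and `(a % ∏ P) % p = a % p` for `p ∣ ∏ P`.
-/

open Finset

namespace RD69

theorem CR_step {q M : ℕ} (hq : 0 < q) (hM : 0 < M) (co : q.Coprime M) (A : ℕ → Prop)
    (B : ℕ → Prop) [DecidablePred A] [DecidablePred B] :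
    #((range (q * M)).filter fun a => A (a % q) ∧ B (a % M)) =
      #((range q).filter A) * #((range M).filter B) := by
  rw [← card_product]
  refine card_nbij' (fun a => (a % q, a % M))
    (fun x => ((Nat.chineseRemainder co x.1 x.2 : { k // k ≡ x.1 [MOD q] ∧ k ≡ x.2 [MOD M] }) : ℕ))
    ?_ ?_ ?_ ?_
  · intro a ha
    simp only [coe_filter, mem_range, Set.mem_ofPred_eq] at ha
    simp only [coe_product, coe_filter, mem_range, Set.mem_prod, Set.mem_ofPred_eq]
    exact ⟨⟨Nat.mod_lt _ hq, ha.2.1⟩, Nat.mod_lt _ hM, ha.2.2⟩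
  · rintro ⟨b, c⟩ h
    simp only [coe_product, coe_filter, mem_range, Set.mem_prod, Set.mem_ofPred_eq] at h
    simp only [coe_filter, mem_range, Set.mem_ofPred_eq]
    have h1 := (Nat.chineseRemainder co b c).2
    have h2 := Nat.chineseRemainder_lt_mul co b c hq.ne' hM.ne'
    have h3 : ((Nat.chineseRemainder co b c : { k // k ≡ b [MOD q] ∧ k ≡ c [MOD M] }) : ℕ) % q =
        b := by
      rw [h1.1, Nat.mod_eq_of_lt h.1.1]
    have h4 : ((Nat.chineseRemainder co b c : { k // k ≡ b [MOD q] ∧ k ≡ c [MOD M] }) : ℕ) % M =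
        c := by
      rw [h1.2, Nat.mod_eq_of_lt h.2.1]
    rw [h3, h4]
    exact ⟨h2, h.1.2, h.2.2⟩
  · intro a ha
    simp only [coe_filter, mem_range, Set.mem_ofPred_eq] at ha
    have h1 := (Nat.chineseRemainder co (a % q) (a % M)).2
    have h2 := Nat.chineseRemainder_lt_mul co (a % q) (a % M) hq.ne' hM.ne'
    have h3 := (Nat.modEq_and_modEq_iff_modEq_mul co).1
      ⟨h1.1.trans (Nat.mod_modEq a q), h1.2.trans (Nat.mod_modEq a M)⟩
    exact Nat.ModEq.eq_of_lt_of_lt h3 h2 ha.1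
  · rintro ⟨b, c⟩ h
    simp only [coe_product, coe_filter, mem_range, Set.mem_prod, Set.mem_ofPred_eq] at h
    have h1 := (Nat.chineseRemainder co b c).2
    refine Prod.ext ?_ ?_
    · change ((Nat.chineseRemainder co b c : { k // k ≡ b [MOD q] ∧ k ≡ c [MOD M] }) : ℕ) % q = b
      rw [h1.1, Nat.mod_eq_of_lt h.1.1]
    · change ((Nat.chineseRemainder co b c : { k // k ≡ b [MOD q] ∧ k ≡ c [MOD M] }) : ℕ) % M = c
      rw [h1.2, Nat.mod_eq_of_lt h.2.1]

theorem CR_one {q : ℕ} (S : Finset ℕ) (hS : ∀ h ∈ S, h < q) :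
    (#((range q).filter fun a => a ∉ S) : ℝ) = (q : ℝ) - #S := by
  have h1 : (range q).filter (fun a => a ∉ S) = range q \ S := by
    ext a
    simp
  have h2 : S ⊆ range q := fun a ha => mem_range.2 (hS a ha)
  rw [h1, card_sdiff_of_subset h2, card_range, Nat.cast_sub]
  have := card_le_card h2
  rwa [card_range] at this

theorem crt_count (P : Finset ℕ) (hP : ∀ p ∈ P, p.Prime) (Ω : ℕ → Finset ℕ)
    (hΩ : ∀ p ∈ P, ∀ h ∈ Ω p, h < p) :
    (#((range (∏ p ∈ P, p)).filter fun a => ∀ p ∈ P, a % p ∉ Ω p) : ℝ) =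
      ∏ p ∈ P, ((p : ℝ) - #(Ω p)) := by
  induction P using Finset.induction_on with
  | empty => simp
  | insert q P hq ih =>
    have hP' : ∀ p ∈ P, p.Prime := fun p hp => hP p (mem_insert_of_mem hp)
    have hqp : q.Prime := hP q (mem_insert_self q P)
    have hM : 0 < ∏ p ∈ P, p := prod_pos fun p hp => (hP' p hp).pos
    have co : q.Coprime (∏ p ∈ P, p) := by
      refine Nat.Coprime.prod_right fun p hp => (Nat.coprime_primes hqp (hP' p hp)).2 ?_
      rintro rfl
      exact hq hp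
    have ih' := ih hP' fun p hp => hΩ p (mem_insert_of_mem hp)
    have key := CR_step hqp.pos hM co (fun a => a ∉ Ω q) (fun a => ∀ p ∈ P, a % p ∉ Ω p)
    rw [prod_insert hq, prod_insert hq]
    have e : ((range (q * ∏ p ∈ P, p)).filter fun a => ∀ p ∈ insert q P, a % p ∉ Ω p) =
        (range (q * ∏ p ∈ P, p)).filter
          fun a => a % q ∉ Ω q ∧ ∀ p ∈ P, a % (∏ p ∈ P, p) % p ∉ Ω p := by
      refine filter_congr fun a _ => ?_
      rw [forall_mem_insert]
      refine and_congr_right fun _ => forall₂_congr fun p hp => ?_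
      rw [Nat.mod_mod_of_dvd a (dvd_prod_of_mem (fun p => p) hp)]
    rw [e, key, Nat.cast_mul, ih', CR_one (Ω q) (hΩ q (mem_insert_self q P))]

end RD69
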