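import Pool.Agent.LibRD69.RI
import Pool.Agent.LibRD69.CR

/-!
ROW AV.  Average over the `r`-subsets of a block.
PROOF.  Let `P = pr u y`, `D = ∏ P`.  By `crt_count` with `Ω p = H.image (· % p)` the product is
`#{a' < D : ∀ p ∈ P, a' % p ∉ H.image (· % p)} / D`, and `a' % p ∉ H.image (· % p)` for all `p` iff
`H ⊆ N a' := {h ∈ Ico a (a+y) : ∀ p ∈ P, ¬ (p:ℤ) ∣ a' - h}`.  Exchange the sums:
`(1/D) ∑_{a'} (#(N a')).choose r`, and `#(N a') ≤ C y log u / log y` by `rough_int` (the map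
`h ↦ a' - h` sends the block into `Ico (a' - a - y + 1) (a' - a + 1)`), `Nat.choose_le_pow_div`.
-/

open Finset

namespace RD69

/-- The elements of the block surviving at `b`. -/
def AV_N (u y a b : ℕ) : Finset ℕ := (Ico a (a + y)).filter fun h => ∀ p ∈ pr u y, ¬ (p : ℤ) ∣ (b : ℤ) - (h : ℤ)

theorem AV_mod (p b h : ℕ) : b % p = h % p ↔ (p : ℤ) ∣ (b : ℤ) - (h : ℤ) := by
  constructor
  · intro e
    have h1 : h ≡ b [MOD p] := e.symm
    exact h1.dvd
  · intro e
    have h1 : h ≡ b [MOD p] := (Nat.modEq_iff_dvd).mpr e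
    exact h1.symm

theorem AV_iff (u y a b : ℕ) (H : Finset ℕ) (hH : H ⊆ Ico a (a + y)) :
    (∀ p ∈ pr u y, b % p ∉ H.image (· % p)) ↔ H ⊆ AV_N u y a b := by
  constructor
  · intro h x hx
    unfold AV_N
    rw [Finset.mem_filter]
    refine ⟨hH hx, ?_⟩
    intro p hp hd
    refine h p hp ?_
    rw [Finset.mem_image]
    exact ⟨x, hx, ((AV_mod p b x).mpr hd).symm⟩
  · intro h p hp hm
    rw [Finset.mem_image] at hm
    obtain ⟨x, hx, he⟩ := hm
    have h1 := h hx
    unfold AV_N at h1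
    rw [Finset.mem_filter] at h1
    exact h1.2 p hp ((AV_mod p b x).mp he.symm)

theorem AV_card (u y a b : ℕ) :
    #(AV_N u y a b) ≤ #((Ico ((b:ℤ) - a - y + 1) ((b:ℤ) - a - y + 1 + y)).filter fun n => ∀ p ∈ pr u y, ¬ (p : ℤ) ∣ n) := by
  refine Finset.card_le_card_of_injOn (fun h : ℕ => (b:ℤ) - h) ?_ ?_
  · intro h hh
    have hh' := Finset.mem_coe.mp hh
    unfold AV_N at hh'
    rw [Finset.mem_filter, Finset.mem_Ico] at hh'
    obtain ⟨⟨h1, h2⟩, h3⟩ := hh'
    refine Finset.mem_coe.mpr ?_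
    rw [Finset.mem_filter, Finset.mem_Ico]
    refine ⟨⟨?_, ?_⟩, h3⟩
    · show (b:ℤ) - a - y + 1 ≤ (b:ℤ) - h
      omega
    · show (b:ℤ) - h < (b:ℤ) - a - y + 1 + y
      omega
  · intro x _ z _ hxz
    have : (b:ℤ) - x = (b:ℤ) - z := hxz
    omega

theorem avg_sub : ∃ C : ℝ, 1 ≤ C ∧ ∀ (r u y a : ℕ), 2 ≤ u → 2 ≤ y →
    ∑ H ∈ (Ico a (a + y)).powersetCard r,
      ∏ p ∈ pr u y, (1 - (#(H.image (· % p)) : ℝ) / p) ≤
      (C * y * Real.log u / Real.log y) ^ r / r.factorial := by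
  obtain ⟨C, hC, hR⟩ := rough_int
  refine ⟨C, hC, ?_⟩
  intro r u y a hu hy
  have hP : ∀ p ∈ pr u y, p.Prime := by
    intro p hp
    unfold pr at hp
    exact (Finset.mem_filter.mp hp).2
  have hD : 0 < ∏ p ∈ pr u y, p := Finset.prod_pos (fun p hp => (hP p hp).pos)
  have hD' : (0:ℝ) < ((∏ p ∈ pr u y, p : ℕ) : ℝ) := by exact_mod_cast hD
  -- each product
  have h1 : ∀ H ∈ (Ico a (a + y)).powersetCard r,
      ∏ p ∈ pr u y, (1 - (#(H.image (· % p)) : ℝ) / p) =
      (∑ b ∈ range (∏ p ∈ pr u y, p), if H ⊆ AV_N u y a b then (1:ℝ) else 0) / ((∏ p ∈ pr u y, p : ℕ) : ℝ) := by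
    intro H hH
    rw [Finset.mem_powersetCard] at hH
    have h2 := crt_count (pr u y) hP (fun p => H.image (· % p)) (by
      intro p hp h hh
      rw [Finset.mem_image] at hh
      obtain ⟨x, _, rfl⟩ := hh
      exact Nat.mod_lt _ (hP p hp).pos)
    have h3 : (∑ b ∈ range (∏ p ∈ pr u y, p), if H ⊆ AV_N u y a b then (1:ℝ) else 0) =
        (#((range (∏ p ∈ pr u y, p)).filter fun b => ∀ p ∈ pr u y, b % p ∉ H.image (· % p)) : ℝ) := by
      rw [← Finset.sum_filter, Finset.sum_const, nsmul_eq_mul, mul_one]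
      congr 2
      refine Finset.filter_congr ?_
      intro b _
      exact (AV_iff u y a b H hH.1).symm
    rw [h3, h2, Nat.cast_prod, ← Finset.prod_div_distrib]
    refine Finset.prod_congr rfl ?_
    intro p hp
    have hp0 : (p:ℝ) ≠ 0 := by exact_mod_cast (hP p hp).ne_zero
    field_simp
  rw [Finset.sum_congr rfl h1, ← Finset.sum_div, Finset.sum_comm]
  rw [div_le_iff₀ hD']
  -- pointwise bound
  have h4 : ∀ b ∈ range (∏ p ∈ pr u y, p),
      (∑ H ∈ (Ico a (a + y)).powersetCard r, if H ⊆ AV_N u y a b then (1:ℝ) else 0) ≤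
      (C * y * Real.log u / Real.log y) ^ r / r.factorial := by
    intro b _
    rw [← Finset.sum_filter, Finset.sum_const, nsmul_eq_mul, mul_one]
    have h5 : ((Ico a (a + y)).powersetCard r).filter (fun H => H ⊆ AV_N u y a b) = (AV_N u y a b).powersetCard r := by
      ext H
      rw [Finset.mem_filter, Finset.mem_powersetCard, Finset.mem_powersetCard]
      constructor
      · rintro ⟨⟨_, h6⟩, h7⟩
        exact ⟨h7, h6⟩
      · rintro ⟨h7, h6⟩
        exact ⟨⟨h7.trans (Finset.filter_subset _ _), h6⟩, h7⟩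
    rw [h5, Finset.card_powersetCard]
    refine (Nat.choose_le_pow_div r (#(AV_N u y a b))).trans ?_
    refine div_le_div_of_nonneg_right ?_ (by positivity)
    refine pow_le_pow_left₀ (Nat.cast_nonneg _) ?_ r
    refine le_trans ?_ (hR u y hu hy ((b:ℤ) - a - y + 1))
    exact_mod_cast AV_card u y a b
  refine (Finset.sum_le_sum h4).trans ?_
  rw [Finset.sum_const, Finset.card_range, nsmul_eq_mul]
  exact le_of_eq (mul_comm _ _)

end RD69
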