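import Pool.Agent.LibBP4.S01
import Pool.Agent.LibRD69.Defs

/-!
ROW B0.  Sharp lower bound for Selberg's sum.
-/

open Finset

namespace RD69

/-- The homomorphism `n ↦ 1/n`. -/
noncomputable def B0_f : ℕ →* ℝ where
  toFun n := (n : ℝ)⁻¹
  map_one' := by simp
  map_mul' m n := by push_cast; rw [mul_inv]

theorem B0_smooth_le (l : ℕ) (t : Finset ℕ)
    (ht : ∀ m ∈ t, m ≠ 0 ∧ ∀ p ∈ m.primeFactors, p ∈ l.primeFactors) :
    ∑ m ∈ t, (m : ℝ)⁻¹ ≤ ∏ p ∈ l.primeFactors, (1 - (p : ℝ)⁻¹)⁻¹ := by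
  have h := EulerProduct.summable_and_hasSum_factoredNumbers_prod_filter_prime_geometric
    (f := B0_f) (fun {p} hp => by
      have h2 : (2 : ℝ) ≤ p := by exact_mod_cast hp.two_le
      change ‖((p : ℝ))⁻¹‖ < 1
      rw [Real.norm_of_nonneg (by positivity)]
      exact inv_lt_one_of_one_lt₀ (by linarith)) l.primeFactors
  have h1 : l.primeFactors.filter Nat.Prime = l.primeFactors := by
    apply filter_true_of_mem
    intro p hp
    exact Nat.prime_of_mem_primeFactors hp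
  rw [h1] at h
  have h2 : ∀ m : Nat.factoredNumbers l.primeFactors, 0 ≤ B0_f m := fun m => by
    change 0 ≤ ((m : ℕ) : ℝ)⁻¹
    positivity
  have hmem : ∀ m ∈ t, m ∈ Nat.factoredNumbers l.primeFactors := by
    intro m hm
    obtain ⟨h3, h4⟩ := ht m hm
    refine ⟨h3, fun p hp => h4 p ?_⟩
    rw [Nat.mem_primeFactors]
    exact ⟨Nat.prime_of_mem_primeFactorsList hp, Nat.dvd_of_mem_primeFactorsList hp, h3⟩
  have h5 := sum_le_hasSum (t.attach.map ⟨fun m => (⟨m.1, hmem m.1 m.2⟩ :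
      Nat.factoredNumbers l.primeFactors), fun a b hab => by
        have := congrArg Subtype.val hab
        exact Subtype.ext this⟩) (fun m _ => h2 m) h.2
  rw [sum_map] at h5
  have h6 : ∑ m ∈ t, (m : ℝ)⁻¹ = ∑ m ∈ t.attach, ((m.1 : ℕ) : ℝ)⁻¹ :=
    (sum_attach t (fun m => (m : ℝ)⁻¹)).symm
  rw [h6]
  exact h5

theorem B0_totient (l : ℕ) (hl : 1 ≤ l) :
    (l : ℝ)⁻¹ * ∏ p ∈ l.primeFactors, (1 - (p : ℝ)⁻¹)⁻¹ = 1 / (Nat.totient l : ℝ) := by
  have h1 := Nat.totient_eq_mul_prod_factors l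
  have h2 : (l.totient : ℝ) = l * ∏ p ∈ l.primeFactors, (1 - (p : ℝ)⁻¹) := by
    have := congrArg (fun x : ℚ => (x : ℝ)) h1
    push_cast at this
    exact this
  rw [h2, one_div, mul_inv, prod_inv_distrib]

theorem G_ge_log (R : ℕ) (hR : 1 ≤ R) : Real.log R ≤ BP4.G R R := by
  classical
  have h1 : Real.log R ≤ ∑ n ∈ Icc 1 R, ((n : ℝ))⁻¹ := by
    have h := log_add_one_le_harmonic R
    have h2 : ((harmonic R : ℚ) : ℝ) = ∑ n ∈ Icc 1 R, ((n : ℝ))⁻¹ := by
      rw [harmonic_eq_sum_Icc]; push_cast; rfl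
    rw [h2] at h
    refine le_trans ?_ h
    apply Real.log_le_log (by exact_mod_cast hR)
    push_cast; linarith
  refine h1.trans ?_
  have hmap : ∀ n ∈ Icc 1 R, (∏ p ∈ n.primeFactors, p) ∈ BP4.sset R R := by
    intro n hn
    rw [mem_Icc] at hn
    have hdvd : (∏ p ∈ n.primeFactors, p) ∣ n := Nat.prod_primeFactors_dvd n
    have hle : (∏ p ∈ n.primeFactors, p) ≤ n := Nat.le_of_dvd (by omega) hdvd
    have hpos : 0 < ∏ p ∈ n.primeFactors, p :=
      prod_pos fun p hp => (Nat.prime_of_mem_primeFactors hp).pos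
    unfold BP4.sset
    rw [mem_filter, mem_Icc]
    refine ⟨⟨hpos, hle.trans hn.2⟩, ?_, ?_⟩
    · apply Finset.squarefree_prod_of_pairwise_isCoprime
      · intro p hp q hq hpq
        simp only [Function.onFun]
        rw [← Nat.coprime_iff_isRelPrime]
        exact (Nat.coprime_primes (Nat.prime_of_mem_primeFactors hp)
          (Nat.prime_of_mem_primeFactors hq)).2 hpq
      · intro p hp
        exact (Nat.prime_of_mem_primeFactors hp).squarefree
    · intro p hp hpd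
      have h3 : p ≤ n := (Nat.le_of_dvd hpos hpd).trans hle
      exact_mod_cast h3.trans hn.2
  rw [← sum_fiberwise_of_maps_to hmap]
  unfold BP4.G
  apply sum_le_sum
  intro l hl
  unfold BP4.sset at hl
  rw [mem_filter, mem_Icc] at hl
  obtain ⟨⟨hl1, hlR⟩, hsq, -⟩ := hl
  have hl0 : l ≠ 0 := by omega
  have hlr : (0 : ℝ) < l := by exact_mod_cast hl1
  rw [← B0_totient l hl1]
  set T := (Icc 1 R).filter (fun n => ∏ p ∈ n.primeFactors, p = l) with hT
  have hTm : ∀ n ∈ T, 1 ≤ n ∧ l ∣ n ∧ n.primeFactors = l.primeFactors := by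
    intro n hn
    rw [hT, mem_filter, mem_Icc] at hn
    refine ⟨hn.1.1, ?_, ?_⟩
    · rw [← hn.2]
      exact Nat.prod_primeFactors_dvd n
    · rw [← hn.2]
      exact (Nat.primeFactors_prod fun p hp => Nat.prime_of_mem_primeFactors hp).symm
  have hinj : Set.InjOn (fun n => n / l) (T : Set ℕ) := by
    intro a ha b hb hab
    have h3 := Nat.div_mul_cancel (hTm a ha).2.1
    have h4 := Nat.div_mul_cancel (hTm b hb).2.1
    simp only at hab
    rw [← h3, ← h4, hab]
  have h5 : ∑ n ∈ T, (n : ℝ)⁻¹ = (l : ℝ)⁻¹ * ∑ m ∈ T.image (fun n => n / l), (m : ℝ)⁻¹ := by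
    rw [sum_image hinj, mul_sum]
    apply sum_congr rfl
    intro n hn
    have h3 := Nat.div_mul_cancel (hTm n hn).2.1
    have h4 : (n : ℝ) = ((n / l : ℕ) : ℝ) * l := by exact_mod_cast h3.symm
    rw [← mul_inv]
    congr 1
    rw [h4]
    push_cast
    ring
  rw [h5]
  apply mul_le_mul_of_nonneg_left _ (by positivity)
  apply B0_smooth_le
  intro m hm
  rw [mem_image] at hm
  obtain ⟨n, hn, rfl⟩ := hm
  obtain ⟨hn1, hln, hpf⟩ := hTm n hn
  have h3 := Nat.div_mul_cancel hln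
  have h0 : n / l ≠ 0 := by
    intro h0
    rw [h0, zero_mul] at h3
    omega
  refine ⟨h0, fun p hp => ?_⟩
  rw [← hpf]
  exact Nat.primeFactors_mono (Nat.div_dvd_of_dvd hln) (by omega) hp

end RD69
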