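import Pool.Agent.LibRD69.B0

/-!
ROW B1.  Brun-Titchmarsh with a parameter.
-/

open Finset

namespace RD69

theorem B1_mult (A y m : ℕ) (hm : 1 ≤ m) :
    |(#((Ico A (A + y)).filter fun n => m ∣ n) : ℝ) - y / m| ≤ 1 := by
  have h := Nat.Ico_filter_modEq_card A (A + y) (r := m) (by omega) 0
  have hset : (Ico A (A + y)).filter (fun n => m ∣ n) =
      (Ico A (A + y)).filter (fun n => n ≡ 0 [MOD m]) := by
    apply filter_congr
    intro n _
    exact (Nat.modEq_zero_iff_dvd).symm
  rw [hset]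
  have hmq : (0 : ℚ) < m := by exact_mod_cast hm
  have h1 : ⌈((A : ℚ)) / m⌉ ≤ ⌈((A + y : ℕ) : ℚ) / m⌉ := by
    apply Int.ceil_le_ceil
    apply div_le_div_of_nonneg_right _ hmq.le
    push_cast
    linarith [(Nat.cast_nonneg y : (0 : ℚ) ≤ y)]
  have h2 : (#((Ico A (A + y)).filter fun n => n ≡ 0 [MOD m]) : ℤ) =
      ⌈((A + y : ℕ) : ℚ) / m⌉ - ⌈((A : ℚ)) / m⌉ := by
    rw [h]
    push_cast
    simp only [sub_zero]
    apply max_eq_left
    push_cast at h1
    linarith
  have h3 : ((#((Ico A (A + y)).filter fun n => n ≡ 0 [MOD m]) : ℤ) : ℚ) - y / m ≤ 1 ∧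
      -1 ≤ ((#((Ico A (A + y)).filter fun n => n ≡ 0 [MOD m]) : ℤ) : ℚ) - y / m := by
    rw [h2]
    push_cast
    have e1 := Int.le_ceil (((A : ℚ)) / m)
    have e2 := Int.ceil_lt_add_one (((A : ℚ)) / m)
    have e3 := Int.le_ceil (((A : ℚ) + y) / m)
    have e4 := Int.ceil_lt_add_one (((A : ℚ) + y) / m)
    have e5 : ((A : ℚ) + y) / m = A / m + y / m := add_div _ _ _
    constructor <;> linarith
  rw [abs_le]
  constructor
  · have := h3.2
    have h4 : ((-1 : ℚ) : ℝ) ≤
        ((((#((Ico A (A + y)).filter fun n => n ≡ 0 [MOD m]) : ℤ) : ℚ) - y / m : ℚ) : ℝ) := by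
      exact_mod_cast this
    push_cast at h4
    exact h4
  · have := h3.1
    have h4 : ((((#((Ico A (A + y)).filter fun n => n ≡ 0 [MOD m]) : ℤ) : ℚ) - y / m : ℚ) : ℝ) ≤
        ((1 : ℚ) : ℝ) := by
      exact_mod_cast this
    push_cast at h4
    exact h4

theorem bt_R (R y A : ℕ) (hR : 2 ≤ R) :
    (#((Ico A (A + y)).filter Nat.Prime) : ℝ) ≤ y / Real.log R + 2 * R ^ 2 := by
  classical
  have hR1 : 1 ≤ R := by omega
  set lam : ℕ → ℝ := BP4.S01lam R R with hlam
  set I := Ico A (A + y) with hI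
  set w : ℕ → ℝ := fun n => (∑ d ∈ Icc 1 R, if d ∣ n then lam d else 0) ^ 2 with hw
  have hw0 : ∀ n, 0 ≤ w n := fun n => sq_nonneg _
  have hwp : ∀ p, p.Prime → R < p → w p = 1 := by
    intro p hp hRp
    have h1 : ∑ d ∈ Icc 1 R, (if d ∣ p then lam d else 0) = lam 1 := by
      rw [sum_eq_single_of_mem 1 (mem_Icc.2 ⟨le_rfl, hR1⟩)]
      · simp
      · intro d hd hd1
        rw [mem_Icc] at hd
        rw [if_neg]
        intro hdp
        rcases (Nat.dvd_prime hp).1 hdp with h | h <;> omega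
    rw [hw]
    simp only
    rw [h1, hlam, BP4.S01_lam_one hR1, one_pow]
  have h1 : (#(I.filter Nat.Prime) : ℝ) ≤ R + ∑ n ∈ I, w n := by
    have h2 : #(I.filter Nat.Prime) ≤
        #((Icc 1 R)) + #((I.filter Nat.Prime).filter fun p => R < p) := by
      refine le_trans (card_le_card ?_) (card_union_le _ _)
      intro p hp
      rw [mem_union, mem_Icc, mem_filter]
      by_cases hpR : p ≤ R
      · left
        rw [mem_filter] at hp
        exact ⟨hp.2.one_lt.le, hpR⟩
      · right
        exact ⟨hp, by omega⟩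
    rw [Nat.card_Icc, Nat.add_sub_cancel] at h2
    have h3 : (#((I.filter Nat.Prime).filter fun p => R < p) : ℝ) ≤ ∑ n ∈ I, w n := by
      calc (#((I.filter Nat.Prime).filter fun p => R < p) : ℝ)
          = ∑ p ∈ (I.filter Nat.Prime).filter (fun p => R < p), w p := by
            rw [card_eq_sum_ones]
            push_cast
            apply sum_congr rfl
            intro p hp
            rw [mem_filter, mem_filter] at hp
            rw [hwp p hp.1.2 hp.2]
        _ ≤ ∑ n ∈ I, w n := by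
            apply sum_le_sum_of_subset_of_nonneg
            · intro p hp
              rw [mem_filter, mem_filter] at hp
              exact hp.1.1
            · intro n _ _
              exact hw0 n
    have h4 : (#(I.filter Nat.Prime) : ℝ) ≤ R + #((I.filter Nat.Prime).filter fun p => R < p) := by
      exact_mod_cast h2
    linarith
  have h2 : ∑ n ∈ I, w n = ∑ d ∈ Icc 1 R, ∑ e ∈ Icc 1 R,
      lam d * lam e * (#(I.filter fun n => Nat.lcm d e ∣ n) : ℝ) := by
    calc ∑ n ∈ I, w n = ∑ n ∈ I, ∑ d ∈ Icc 1 R, ∑ e ∈ Icc 1 R,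
          (if Nat.lcm d e ∣ n then lam d * lam e else 0) := by
          apply sum_congr rfl
          intro n _
          rw [hw]
          simp only
          rw [sq, sum_mul_sum]
          apply sum_congr rfl
          intro d _
          apply sum_congr rfl
          intro e _
          by_cases h1 : d ∣ n <;> by_cases h2 : e ∣ n <;>
            simp [h1, h2, Nat.lcm_dvd_iff]
      _ = ∑ d ∈ Icc 1 R, ∑ e ∈ Icc 1 R, ∑ n ∈ I,
          (if Nat.lcm d e ∣ n then lam d * lam e else 0) := by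
          rw [sum_comm]
          apply sum_congr rfl
          intro d _
          rw [sum_comm]
      _ = _ := by
          apply sum_congr rfl
          intro d _
          apply sum_congr rfl
          intro e _
          rw [← sum_filter, sum_const, nsmul_eq_mul]
          ring
  have h3 : ∑ d ∈ Icc 1 R, ∑ e ∈ Icc 1 R,
      lam d * lam e * (#(I.filter fun n => Nat.lcm d e ∣ n) : ℝ) ≤
      y * (1 / BP4.G R R) + R ^ 2 := by
    rw [← BP4.S01_quad hR1, mul_sum]
    have h4 : (R : ℝ) ^ 2 = ∑ d ∈ Icc 1 R, ∑ e ∈ Icc 1 R, (1 : ℝ) := by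
      simp [sq]
    rw [h4, ← sum_add_distrib]
    apply sum_le_sum
    intro d hd
    rw [mul_sum, ← sum_add_distrib]
    apply sum_le_sum
    intro e he
    rw [mem_Icc] at hd he
    have hl : 1 ≤ Nat.lcm d e := Nat.lcm_pos (by omega) (by omega)
    have h5 := B1_mult A y (Nat.lcm d e) hl
    have h6 : |lam d * lam e| ≤ 1 := by
      rw [abs_mul]
      exact mul_le_one₀ (BP4.S01_lam_le hR1 d) (abs_nonneg _) (BP4.S01_lam_le hR1 e)
    have h7 : lam d * lam e * ((#(I.filter fun n => Nat.lcm d e ∣ n) : ℝ) - y / Nat.lcm d e) ≤ 1 := by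
      calc lam d * lam e * ((#(I.filter fun n => Nat.lcm d e ∣ n) : ℝ) - y / Nat.lcm d e)
          ≤ |lam d * lam e * ((#(I.filter fun n => Nat.lcm d e ∣ n) : ℝ) - y / Nat.lcm d e)| :=
            le_abs_self _
        _ = |lam d * lam e| * |(#(I.filter fun n => Nat.lcm d e ∣ n) : ℝ) - y / Nat.lcm d e| :=
            abs_mul _ _
        _ ≤ 1 * 1 := mul_le_mul h6 h5 (abs_nonneg _) zero_le_one
        _ = 1 := one_mul 1
    calc lam d * lam e * (#(I.filter fun n => Nat.lcm d e ∣ n) : ℝ)
        = lam d * lam e * ((#(I.filter fun n => Nat.lcm d e ∣ n) : ℝ) - y / Nat.lcm d e) +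
          y * (lam d * lam e / Nat.lcm d e) := by ring
      _ ≤ 1 + y * (lam d * lam e / Nat.lcm d e) := by linarith
      _ = _ := by ring
  have hlog : 0 < Real.log R := Real.log_pos (by exact_mod_cast hR)
  have hG := G_ge_log R hR1
  have h8 : (y : ℝ) * (1 / BP4.G R R) ≤ y / Real.log R := by
    rw [mul_one_div]
    apply div_le_div_of_nonneg_left (Nat.cast_nonneg y) hlog hG
  have h9 : (R : ℝ) ≤ R ^ 2 := by
    have : (2 : ℝ) ≤ R := by exact_mod_cast hR
    nlinarith
  linarith

end RD69
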