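import Pool.Agent.LibRD69.B1

/-!
ROW B2.  Brun-Titchmarsh with constant `2 + δ`.
PROOF.  `R = ⌊√y / log y⌋₊`: `2 R^2 ≤ 2 y / (log y)^2` and `log R ≥ (1/2) log y - log log y - 1` for large `y`, so
`y / log R + 2 R^2 ≤ (2 + δ) y / log y` for `y ≥ y₀(δ)` (limits; `Filter.eventually_atTop`).
-/

open Finset

namespace RD69

theorem B2_lim (δ : ℝ) (hδ : 0 < δ) : ∀ᶠ L : ℝ in Filter.atTop,
    0 < L ∧ 0 < L / 2 - Real.log L - Real.log 2 ∧
      L / (L / 2 - Real.log L - Real.log 2) + 2 / L ≤ 2 + δ := by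
  have h1 : Filter.Tendsto (fun L : ℝ => Real.log L / L) Filter.atTop (nhds 0) :=
    Real.isLittleO_log_id_atTop.tendsto_div_nhds_zero
  have h2 : Filter.Tendsto (fun L : ℝ => Real.log 2 / L) Filter.atTop (nhds 0) :=
    Filter.Tendsto.const_div_atTop Filter.tendsto_id _
  have h3 : Filter.Tendsto (fun L : ℝ => 2 / L) Filter.atTop (nhds 0) :=
    Filter.Tendsto.const_div_atTop Filter.tendsto_id _
  have h4 : Filter.Tendsto (fun L : ℝ => 1 / 2 - Real.log L / L - Real.log 2 / L)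
      Filter.atTop (nhds (1 / 2 - 0 - 0)) := (h1.const_sub (1 / 2)).sub h2
  rw [sub_zero, sub_zero] at h4
  have h5 : Filter.Tendsto (fun L : ℝ => (1 / 2 - Real.log L / L - Real.log 2 / L)⁻¹ + 2 / L)
      Filter.atTop (nhds ((1 / 2 : ℝ)⁻¹ + 0)) := (h4.inv₀ (by norm_num)).add h3
  have h6 : ((1 / 2 : ℝ)⁻¹ + 0) < 2 + δ := by norm_num; exact hδ
  filter_upwards [h5.eventually_lt_const h6, Filter.eventually_gt_atTop (0 : ℝ),
    h4.eventually_const_lt (show (0 : ℝ) < 1 / 2 by norm_num)] with L h7 h8 h9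
  have h10 : L / 2 - Real.log L - Real.log 2 =
      L * (1 / 2 - Real.log L / L - Real.log 2 / L) := by
    field_simp
  refine ⟨h8, ?_, ?_⟩
  · rw [h10]; exact mul_pos h8 h9
  · rw [h10, ← div_div, div_self h8.ne', one_div]
    exact h7.le

theorem bt_sharp (δ : ℝ) (hδ : 0 < δ) : ∃ y₀ : ℕ, 2 ≤ y₀ ∧ ∀ y : ℕ, y₀ ≤ y → ∀ A : ℕ,
    (#((Ico A (A + y)).filter Nat.Prime) : ℝ) ≤ (2 + δ) * y / Real.log y := by
  have hlog : Filter.Tendsto (fun y : ℕ => Real.log (y : ℝ)) Filter.atTop Filter.atTop :=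
    Real.tendsto_log_atTop.comp tendsto_natCast_atTop_atTop
  have h1 := hlog.eventually (B2_lim δ hδ)
  have h2 : ∀ᶠ y : ℕ in Filter.atTop, 3 * Real.log (y : ℝ) ≤ √(y : ℝ) := by
    have h3 : ∀ᶠ x : ℝ in Filter.atTop, ‖Real.log x‖ ≤ (1 / 3) * ‖x ^ (1 / 2 : ℝ)‖ :=
      (isLittleO_log_rpow_atTop (by norm_num : (0 : ℝ) < 1 / 2)).def (by norm_num)
    have h4 := tendsto_natCast_atTop_atTop.eventually h3
    filter_upwards [h4] with y hy
    rw [← Real.sqrt_eq_rpow] at hy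
    have h5 : Real.log (y : ℝ) ≤ ‖Real.log (y : ℝ)‖ := le_abs_self _
    have h6 : ‖√(y : ℝ)‖ = √(y : ℝ) := abs_of_nonneg (Real.sqrt_nonneg _)
    rw [h6] at hy
    linarith
  obtain ⟨y₁, hy₁⟩ := Filter.eventually_atTop.1 (h1.and h2)
  refine ⟨max y₁ 2, le_max_right _ _, fun y hy A => ?_⟩
  obtain ⟨⟨hL, hM, hLM⟩, hs⟩ := hy₁ y ((le_max_left _ _).trans hy)
  have hy2 : 2 ≤ y := (le_max_right _ _).trans hy
  have hy0 : (0 : ℝ) < y := by exact_mod_cast (by omega : 0 < y)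
  set L := Real.log (y : ℝ) with hLd
  have hsq : 0 < √(y : ℝ) := Real.sqrt_pos.2 hy0
  have hq3 : 3 ≤ √(y : ℝ) / L := by
    rw [le_div_iff₀ hL]; exact hs
  set R := ⌊√(y : ℝ) / L⌋₊ with hR
  have hR1 : (R : ℝ) ≤ √(y : ℝ) / L := Nat.floor_le (by positivity)
  have hR2 : √(y : ℝ) / L < R + 1 := Nat.lt_floor_add_one _
  have hR3 : (2 : ℝ) < R := by linarith
  have hR4 : 2 ≤ R := by
    have : (2 : ℝ) ≤ R := hR3.le
    exact_mod_cast this
  have hR5 : √(y : ℝ) / (2 * L) ≤ R := by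
    have : √(y : ℝ) / (2 * L) = √(y : ℝ) / L / 2 := by
      field_simp
    rw [this]
    linarith
  have hR6 : L / 2 - Real.log L - Real.log 2 ≤ Real.log R := by
    have h5 := Real.log_le_log (by positivity) hR5
    rw [Real.log_div hsq.ne' (by positivity), Real.log_mul (by norm_num) hL.ne',
      Real.log_sqrt hy0.le] at h5
    linarith
  have hbt := bt_R R y A hR4
  refine hbt.trans ?_
  have h7 : (y : ℝ) / Real.log R ≤ y / (L / 2 - Real.log L - Real.log 2) :=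
    div_le_div_of_nonneg_left hy0.le hM hR6
  have h8 : 2 * (R : ℝ) ^ 2 ≤ 2 * (y / L ^ 2) := by
    have h9 : (R : ℝ) ^ 2 ≤ (√(y : ℝ) / L) ^ 2 := pow_le_pow_left₀ (Nat.cast_nonneg _) hR1 2
    rw [div_pow, Real.sq_sqrt hy0.le] at h9
    linarith
  have h10 : (y : ℝ) / (L / 2 - Real.log L - Real.log 2) + 2 * (y / L ^ 2) =
      y / L * (L / (L / 2 - Real.log L - Real.log 2) + 2 / L) := by
    field_simp
  have h11 : y / L * (L / (L / 2 - Real.log L - Real.log 2) + 2 / L) ≤ y / L * (2 + δ) :=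
    mul_le_mul_of_nonneg_left hLM (by positivity)
  have h12 : y / L * (2 + δ) = (2 + δ) * y / L := by ring
  linarith

end RD69
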