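import Pool.Agent.LibRD69.AV

/-!
ROW FM.  Factorial moments of the number of sieved points of a block.
PROOF.  `∑ n, (#sv).choose r = ∑ H ∈ powersetCard r (block), #{n ∈ Icc 1 x : H ⊆ sv n}`.  For fixed `H` apply
`sieve_ub` with `N = x`, `A = 1`, `P = pr (2r) z`, `Ω p = H.image (· % p)` (`#(Ω p) ≤ r`), `s` the image in `ℤ`
of these `n`.  Split `pr (2r) z = pr (2r) y ∪ pr (y+1) z`; for `p > y` the residues of `H` are distinct, so the
factor is `1 - r/p ≤ (1 - 1/p)^r` (Bernoulli, `one_add_mul_le_pow`), and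
`∏_{pr (y+1) z} (1 - 1/p) ≤ C log (y+1)/log z ≤ 2 C log y / log z` by `mertens_prod`.  The rest is `avg_sub`.
-/

open Finset

namespace RD69

theorem FM_choose (u z : ℕ) (I : Finset ℕ) (x r : ℕ) :
    (∑ n ∈ Icc 1 x, ((#(sv u z I n)).choose r : ℝ)) =
      ∑ H ∈ I.powersetCard r, (#((Icc 1 x).filter fun n => H ⊆ sv u z I n) : ℝ) := by
  have h1 : ∀ n : ℕ, ((#(sv u z I n)).choose r : ℝ) =
      ∑ H ∈ I.powersetCard r, if H ⊆ sv u z I n then (1:ℝ) else 0 := by
    intro n
    rw [← Finset.sum_filter, Finset.sum_const, nsmul_eq_mul, mul_one, ← card_powersetCard]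
    congr 2
    ext H
    simp only [mem_powersetCard, mem_filter]
    constructor
    · rintro ⟨h, h'⟩
      exact ⟨⟨h.trans (filter_subset _ _), h'⟩, h⟩
    · rintro ⟨⟨_, h'⟩, h⟩
      exact ⟨h, h'⟩
  rw [Finset.sum_congr rfl fun n _ => h1 n, Finset.sum_comm]
  refine Finset.sum_congr rfl fun H _ => ?_
  rw [← Finset.sum_filter, Finset.sum_const, nsmul_eq_mul, mul_one]

theorem FM_inj {a y p : ℕ} (hp : y < p) {H : Finset ℕ} (hH : H ⊆ Ico a (a + y)) :
    #(H.image (· % p)) = #H := by
  apply card_image_of_injOn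
  intro i hi j hj hij
  have h1 := mem_Ico.1 (hH hi)
  have h2 := mem_Ico.1 (hH hj)
  have hij' : i % p = j % p := hij
  rcases le_total i j with h | h
  · have hd : p ∣ j - i := (Nat.modEq_iff_dvd' h).1 hij'
    have := Nat.eq_zero_of_dvd_of_lt hd (by omega)
    omega
  · have hd : p ∣ i - j := (Nat.modEq_iff_dvd' h).1 hij'.symm
    have := Nat.eq_zero_of_dvd_of_lt hd (by omega)
    omega

theorem FM_split {u y z : ℕ} (h1 : u ≤ y) (h2 : y ≤ z) (f : ℕ → ℝ) :
    ∏ p ∈ pr u z, f p = (∏ p ∈ pr u y, f p) * ∏ p ∈ pr (y + 1) z, f p := by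
  have hd : Disjoint (pr u y) (pr (y + 1) z) := by
    rw [Finset.disjoint_left]
    intro p hp hp'
    simp only [pr, mem_filter, mem_Icc] at hp hp'
    omega
  rw [← Finset.prod_union hd]
  congr 1
  ext p
  simp only [pr, mem_union, mem_filter, mem_Icc]
  constructor
  · rintro ⟨⟨h, h'⟩, hp⟩
    rcases le_or_gt p y with h3 | h3
    · exact Or.inl ⟨⟨h, h3⟩, hp⟩
    · exact Or.inr ⟨⟨h3, h'⟩, hp⟩
  · rintro (⟨⟨h, h'⟩, hp⟩ | ⟨⟨h, h'⟩, hp⟩)
    · exact ⟨⟨h, h'.trans h2⟩, hp⟩
    · exact ⟨⟨by omega, h'⟩, hp⟩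

theorem fac_moment : ∃ (C : ℝ) (C₀ : ℕ), 1 ≤ C ∧ 1 ≤ C₀ ∧ ∀ (r x y z a : ℕ), 1 ≤ r →
    2 * r ≤ y → y ≤ z → z ^ (C₀ * r) ≤ x →
    (∑ n ∈ Icc 1 x, ((#(sv (2 * r) z (Ico a (a + y)) n)).choose r : ℝ)) ≤
      18 * x * ((C * y * Real.log (2 * r) / Real.log z) ^ r / r.factorial) := by
  obtain ⟨C1, hC1, hsieve⟩ := sieve_ub
  obtain ⟨CM, hCM, hmert⟩ := mertens_prod
  obtain ⟨CA, hCA, havg⟩ := avg_sub
  refine ⟨2 * CM * CA, C1, by nlinarith, hC1, ?_⟩
  intro r x y z a hr hry hyz hzx
  have hy2 : 2 ≤ y := by omega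
  have hz2 : 2 ≤ z := by omega
  have hy2R : (2:ℝ) ≤ y := by exact_mod_cast hy2
  have hlogy : 0 < Real.log y := Real.log_pos (by linarith)
  have hlogz : 0 < Real.log z := Real.log_pos (by
    have : (2:ℝ) ≤ z := by exact_mod_cast hz2
    linarith)
  have hlog2r : 0 ≤ Real.log (2 * r) := Real.log_nonneg (by
    have : (1:ℝ) ≤ r := by exact_mod_cast hr
    linarith)
  set I := Ico a (a + y) with hI
  -- one `H`
  have hone : ∀ H ∈ I.powersetCard r, (#((Icc 1 x).filter fun n => H ⊆ sv (2 * r) z I n) : ℝ) ≤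
      18 * x * (CM * Real.log ((y + 1 : ℕ) : ℝ) / Real.log z) ^ r *
        ∏ p ∈ pr (2 * r) y, (1 - (#(H.image (· % p)) : ℝ) / p) := by
    intro H hH
    obtain ⟨hHI, hHr⟩ := mem_powersetCard.1 hH
    have hP : ∀ p ∈ pr (2 * r) z, p.Prime ∧ 2 * r ≤ p ∧ p ≤ z ∧
        #((fun p => H.image (· % p)) p) ≤ r ∧ ∀ h ∈ (fun p => H.image (· % p)) p, h < p := by
      intro p hp
      simp only [pr, mem_filter, mem_Icc] at hp
      refine ⟨hp.2, hp.1.1, hp.1.2, ?_, ?_⟩
      · rw [← hHr]; exact card_image_le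
      · intro h hh
        simp only [mem_image] at hh
        obtain ⟨j, _, rfl⟩ := hh
        exact Nat.mod_lt _ hp.2.pos
    set T := (Icc 1 x).filter fun n => H ⊆ sv (2 * r) z I n with hT
    have hcard : #(T.image (fun n : ℕ => (n : ℤ))) = #T :=
      card_image_of_injective _ Nat.cast_injective
    have hs := hsieve r z x (pr (2 * r) z) (fun p => H.image (· % p)) hr hz2 hP hzx 1
      (T.image (fun n : ℕ => (n : ℤ))) (by
        intro n hn
        simp only [mem_image, hT, mem_filter, mem_Icc] at hn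
        obtain ⟨m, ⟨⟨h1, h2⟩, _⟩, rfl⟩ := hn
        rw [Finset.mem_Ico]
        constructor
        · exact_mod_cast h1
        · have : (m:ℤ) ≤ x := by exact_mod_cast h2
          linarith) (by
        intro p hp n hn h hh
        simp only [mem_image, hT, mem_filter] at hn hh
        obtain ⟨m, ⟨_, hm⟩, rfl⟩ := hn
        obtain ⟨j, hj, rfl⟩ := hh
        have hjs := hm hj
        simp only [sv, mem_filter] at hjs
        intro hcon
        refine hjs.2 p hp ?_
        have h1 : ((j % p : ℕ) : ℤ) ≡ (j : ℤ) [ZMOD p] := by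
          rw [Int.natCast_mod]
          exact Int.mod_modEq _ _
        exact (hcon.trans h1).symm.dvd)
    rw [hcard] at hs
    refine hs.trans ?_
    rw [FM_split hry hyz]
    have hnn1 : 0 ≤ ∏ p ∈ pr (2 * r) y, (1 - (#(H.image (· % p)) : ℝ) / p) := by
      apply Finset.prod_nonneg
      intro p hp
      simp only [pr, mem_filter, mem_Icc] at hp
      have hc : (#(H.image (· % p)) : ℝ) ≤ p := by
        have h1 : #(H.image (· % p)) ≤ r := by rw [← hHr]; exact card_image_le
        exact_mod_cast (by omega : #(H.image (· % p)) ≤ p)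
      have hp0 : (0:ℝ) < p := by exact_mod_cast hp.2.pos
      rw [sub_nonneg, div_le_one hp0]
      exact hc
    have hbig : ∏ p ∈ pr (y + 1) z, (1 - (#(H.image (· % p)) : ℝ) / p) ≤
        (CM * Real.log ((y + 1 : ℕ) : ℝ) / Real.log z) ^ r := by
      calc ∏ p ∈ pr (y + 1) z, (1 - (#(H.image (· % p)) : ℝ) / p)
          ≤ ∏ p ∈ pr (y + 1) z, (1 - 1 / (p : ℝ)) ^ r := by
            apply Finset.prod_le_prod
            · intro p hp
              simp only [pr, mem_filter, mem_Icc] at hp
              have hc : (#(H.image (· % p)) : ℝ) ≤ p := by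
                have h1 : #(H.image (· % p)) ≤ r := by rw [← hHr]; exact card_image_le
                exact_mod_cast (by omega : #(H.image (· % p)) ≤ p)
              have hp0 : (0:ℝ) < p := by exact_mod_cast hp.2.pos
              rw [sub_nonneg, div_le_one hp0]
              exact hc
            · intro p hp
              simp only [pr, mem_filter, mem_Icc] at hp
              have hp0 : (0:ℝ) < p := by exact_mod_cast hp.2.pos
              have hp1 : (1:ℝ) ≤ p := by exact_mod_cast hp.2.one_lt.le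
              rw [FM_inj (by omega : y < p) hHI, hHr]
              have hb := one_add_mul_le_pow (a := -(1 / (p:ℝ))) (by
                have : 1 / (p:ℝ) ≤ 1 := (div_le_one hp0).2 hp1
                linarith) r
              have e1 : (1 + (r:ℝ) * -(1 / (p:ℝ))) = 1 - (r:ℝ) / p := by ring
              have e2 : (1 + -(1 / (p:ℝ))) = 1 - 1 / (p:ℝ) := by ring
              rw [e1, e2] at hb
              exact hb
        _ = (∏ p ∈ pr (y + 1) z, (1 - 1 / (p : ℝ))) ^ r := by rw [Finset.prod_pow]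
        _ ≤ (CM * Real.log ((y + 1 : ℕ) : ℝ) / Real.log z) ^ r := by
            apply pow_le_pow_left₀
            · apply Finset.prod_nonneg
              intro p hp
              simp only [pr, mem_filter, mem_Icc] at hp
              have hp0 : (0:ℝ) < p := by exact_mod_cast hp.2.pos
              have hp1 : (1:ℝ) ≤ p := by exact_mod_cast hp.2.one_lt.le
              rw [sub_nonneg, div_le_one hp0]
              exact hp1
            · exact hmert (y + 1) z (by omega) hz2
    calc 18 * (x:ℝ) * ((∏ p ∈ pr (2 * r) y, (1 - (#(H.image (· % p)) : ℝ) / p)) *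
          ∏ p ∈ pr (y + 1) z, (1 - (#(H.image (· % p)) : ℝ) / p))
        ≤ 18 * (x:ℝ) * ((∏ p ∈ pr (2 * r) y, (1 - (#(H.image (· % p)) : ℝ) / p)) *
          (CM * Real.log ((y + 1 : ℕ) : ℝ) / Real.log z) ^ r) := by
          apply mul_le_mul_of_nonneg_left _ (by positivity)
          exact mul_le_mul_of_nonneg_left hbig hnn1
      _ = _ := by ring
  rw [FM_choose]
  have hlogy1 : Real.log ((y + 1 : ℕ) : ℝ) ≤ 2 * Real.log y := by
    have : ((y + 1 : ℕ) : ℝ) ≤ (y:ℝ) ^ 2 := by
      push_cast; nlinarith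
    calc Real.log ((y + 1 : ℕ) : ℝ) ≤ Real.log ((y:ℝ) ^ 2) :=
          Real.log_le_log (by positivity) this
      _ = 2 * Real.log y := by rw [Real.log_pow]; norm_num
  have hlogy1' : 0 ≤ Real.log ((y + 1 : ℕ) : ℝ) := Real.log_nonneg (by
    push_cast; linarith)
  have hAV := havg r (2 * r) y a (by omega) hy2
  calc ∑ H ∈ I.powersetCard r, (#((Icc 1 x).filter fun n => H ⊆ sv (2 * r) z I n) : ℝ)
      ≤ ∑ H ∈ I.powersetCard r, 18 * x * (CM * Real.log ((y + 1 : ℕ) : ℝ) / Real.log z) ^ r *
        ∏ p ∈ pr (2 * r) y, (1 - (#(H.image (· % p)) : ℝ) / p) := Finset.sum_le_sum hone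
    _ = 18 * x * (CM * Real.log ((y + 1 : ℕ) : ℝ) / Real.log z) ^ r *
        ∑ H ∈ I.powersetCard r, ∏ p ∈ pr (2 * r) y, (1 - (#(H.image (· % p)) : ℝ) / p) := by
        rw [Finset.mul_sum]
    _ ≤ 18 * x * (CM * Real.log ((y + 1 : ℕ) : ℝ) / Real.log z) ^ r *
        ((CA * y * Real.log ((2 * r : ℕ) : ℝ) / Real.log y) ^ r / r.factorial) := by
        apply mul_le_mul_of_nonneg_left hAV
        have : 0 ≤ CM * Real.log ((y + 1 : ℕ) : ℝ) / Real.log z := by positivity
        positivity
    _ = 18 * x * (((CM * Real.log ((y + 1 : ℕ) : ℝ) / Real.log z) *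
        (CA * y * Real.log (2 * r) / Real.log y)) ^ r / r.factorial) := by
        rw [mul_pow]
        push_cast
        ring
    _ ≤ 18 * x * ((2 * CM * CA * y * Real.log (2 * r) / Real.log z) ^ r / r.factorial) := by
        apply mul_le_mul_of_nonneg_left _ (by positivity)
        apply div_le_div_of_nonneg_right _ (by positivity)
        apply pow_le_pow_left₀
        · positivity
        · calc CM * Real.log ((y + 1 : ℕ) : ℝ) / Real.log z *
              (CA * y * Real.log (2 * r) / Real.log y)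
              = (Real.log ((y + 1 : ℕ) : ℝ) / Real.log y) *
                (CM * CA * y * Real.log (2 * r) / Real.log z) := by
                field_simp
            _ ≤ 2 * (CM * CA * y * Real.log (2 * r) / Real.log z) := by
                apply mul_le_mul_of_nonneg_right _ (by positivity)
                rw [div_le_iff₀ hlogy]
                exact hlogy1
            _ = _ := by ring

end RD69
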