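import Pool.Agent.LibLargeSieve.Sifted
import Pool.Agent.LibRD69.Defs

/-!
ROW M1.  One prime step of Montgomery's inequality for several residue classes.
PROOF.  `U = insert 0 (ordSet p)` is the `p`-torsion; `∑ x ∈ U, e (k • x) = p` if `p ∣ k`, else `0`
(`LSieve.sum_ordSet_prime`, card of `ordSet p` is `p - 1` by `LSieve.card_ordSet`).  Put
`Z h = ∑ n ∈ s with n % p = h, f n * e (n • γ)` for `h ∈ range p`; then `expSum s f γ = ∑ h, Z h`,
`∑ x ∈ U, ‖expSum s f (γ + x)‖ ^ 2 = p * ∑ h, ‖Z h‖ ^ 2` (expand the square), `Z h = 0` for `h ∈ Ω`,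
and by Cauchy-Schwarz (`sq_sum_le_card_mul_sum_sq` over `range p \ Ω`)
`‖expSum s f γ‖ ^ 2 ≤ (p - #Ω) * ∑ h, ‖Z h‖ ^ 2`.  Multiply by `p` and use `x = 0` separately.
-/

open Finset LSieve

namespace RD69

theorem M1_sumU {p : ℕ} (hp : p.Prime) (k : ℤ) :
    ∑ x ∈ insert 0 (ordSet p), e (k • x) = if (p : ℤ) ∣ k then (p : ℂ) else 0 := by
  have h0 : (0 : UnitAddCircle) ∉ ordSet p := by
    rw [mem_ordSet]
    rintro ⟨_, h⟩
    rw [addOrderOf_zero] at h
    exact hp.one_lt.ne h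
  rw [sum_insert h0]
  split_ifs with hk
  · obtain ⟨l, rfl⟩ := hk
    have h1 : ∀ x ∈ ordSet p, e (((p : ℤ) * l) • x) = 1 := by
      intro x hx
      have h2 : p • x = 0 := by
        rw [← (mem_ordSet.1 hx).2]
        exact addOrderOf_nsmul_eq_zero x
      have h3 : ((p : ℤ) * l) • x = 0 := by
        rw [mul_comm, mul_smul, natCast_zsmul, h2, smul_zero]
      rw [h3, e_zero]
    rw [sum_congr rfl h1, smul_zero, e_zero, sum_const, card_ordSet p hp.pos,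
      Nat.totient_prime hp, nsmul_eq_mul, mul_one, Nat.cast_sub hp.one_lt.le]
    push_cast
    ring
  · rw [smul_zero, e_zero]
    exact sum_ordSet_prime hp k hk

theorem mont1 {p : ℕ} (hp : p.Prime) (s : Finset ℤ) (f : ℤ → ℂ) (Ω : Finset ℕ)
    (hΩ : ∀ h ∈ Ω, h < p) (hf : ∀ n ∈ s, f n ≠ 0 → ∀ h ∈ Ω, ¬ n ≡ (h : ℤ) [ZMOD p])
    (γ : UnitAddCircle) :
    (#Ω : ℝ) * ‖expSum s f γ‖ ^ 2 ≤
      ((p : ℝ) - #Ω) * ∑ x ∈ ordSet p, ‖expSum s f (γ + x)‖ ^ 2 := by
  classical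
  have hp0 : (0 : ℤ) < p := by exact_mod_cast hp.pos
  set r : ℤ → ℕ := fun n => (n % (p : ℤ)).toNat with hr
  have hr1 : ∀ n : ℤ, ((r n : ℕ) : ℤ) = n % p := fun n => Int.toNat_of_nonneg
    (Int.emod_nonneg n hp0.ne')
  have hrlt : ∀ n : ℤ, r n ∈ range p := by
    intro n
    rw [mem_range]
    have h1 : ((r n : ℕ) : ℤ) < p := by
      rw [hr1]
      exact Int.emod_lt_of_pos n hp0
    exact_mod_cast h1
  have hreq : ∀ n m : ℤ, r m = r n ↔ (p : ℤ) ∣ n - m := by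
    intro n m
    rw [← Int.modEq_iff_dvd, ← Nat.cast_inj (R := ℤ), hr1, hr1]
    exact Iff.rfl
  set a : ℤ → ℂ := fun n => f n * e (n • γ) with ha
  set Z : ℕ → ℂ := fun h => ∑ n ∈ s.filter (fun n => r n = h), a n with hZ
  have hsum : expSum s f γ = ∑ h ∈ range p, Z h := by
    rw [hZ, sum_fiberwise_of_maps_to (fun n _ => hrlt n)]
    rfl
  -- Parseval
  have hS : ∀ x : UnitAddCircle, expSum s f (γ + x) = ∑ n ∈ s, a n * e (n • x) := by
    intro x
    unfold expSum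
    refine sum_congr rfl fun n _ => ?_
    rw [ha, smul_add, e_add, mul_assoc]
  have hpars : ∑ x ∈ insert 0 (ordSet p), ‖expSum s f (γ + x)‖ ^ 2 =
      p * ∑ h ∈ range p, ‖Z h‖ ^ 2 := by
    have hL : ((∑ x ∈ insert 0 (ordSet p), ‖expSum s f (γ + x)‖ ^ 2 : ℝ) : ℂ) =
        ∑ n ∈ s, ∑ m ∈ s, a n * (starRingEnd ℂ) (a m) * (if (p : ℤ) ∣ n - m then (p : ℂ) else 0) := by
      push_cast
      have h1 : ∀ x ∈ insert 0 (ordSet p), (‖expSum s f (γ + x)‖ : ℂ) ^ 2 =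
          ∑ n ∈ s, ∑ m ∈ s, a n * (starRingEnd ℂ) (a m) * e ((n - m) • x) := by
        intro x _
        rw [← Complex.mul_conj', hS, map_sum, sum_mul_sum]
        refine sum_congr rfl fun n _ => sum_congr rfl fun m _ => ?_
        rw [map_mul, sub_smul, e_sub]
        ring
      rw [sum_congr rfl h1, sum_comm]
      refine sum_congr rfl fun n _ => ?_
      rw [sum_comm]
      refine sum_congr rfl fun m _ => ?_
      rw [← mul_sum, M1_sumU hp]
    have hR : ((p * ∑ h ∈ range p, ‖Z h‖ ^ 2 : ℝ) : ℂ) =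
        ∑ n ∈ s, ∑ m ∈ s, a n * (starRingEnd ℂ) (a m) * (if (p : ℤ) ∣ n - m then (p : ℂ) else 0) := by
      push_cast
      have h1 : ∀ h ∈ range p, (‖Z h‖ : ℂ) ^ 2 =
          ∑ n ∈ s.filter (fun n => r n = h), a n * (starRingEnd ℂ) (Z (r n)) := by
        intro h _
        rw [← Complex.mul_conj']
        nth_rw 1 [hZ]
        rw [sum_mul]
        refine sum_congr rfl fun n hn => ?_
        rw [(mem_filter.1 hn).2]
      rw [sum_congr rfl h1, sum_fiberwise_of_maps_to (fun n _ => hrlt n), mul_sum]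
      refine sum_congr rfl fun n _ => ?_
      rw [hZ]
      simp only
      rw [map_sum, mul_sum, mul_sum, sum_filter]
      refine sum_congr rfl fun m _ => ?_
      by_cases h2 : r m = r n
      · rw [if_pos h2, if_pos ((hreq n m).1 h2)]
        ring
      · rw [if_neg h2, if_neg (fun h3 => h2 ((hreq n m).2 h3)), mul_zero]
    exact_mod_cast hL.trans hR.symm
  -- vanishing and Cauchy-Schwarz
  have hsub : Ω ⊆ range p := fun h hh => mem_range.2 (hΩ h hh)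
  have hZ0 : ∀ h ∈ Ω, Z h = 0 := by
    intro h hh
    refine sum_eq_zero fun n hn => ?_
    rw [mem_filter] at hn
    have h1 : f n = 0 := by
      by_contra hne
      refine hf n hn.1 hne h hh ?_
      have h2 := hr1 n
      rw [hn.2] at h2
      have h3 : (h : ℤ) % p = n % p := by
        rw [h2, Int.emod_emod_of_dvd n (dvd_refl (p : ℤ))]
      exact h3.symm
    simp only [ha, h1, zero_mul]
  have hsum2 : expSum s f γ = ∑ h ∈ range p \ Ω, Z h := by
    rw [hsum, ← sum_sdiff hsub, sum_eq_zero hZ0, add_zero]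
  have hcard : (#(range p \ Ω) : ℝ) = (p : ℝ) - #Ω := by
    rw [card_sdiff_of_subset hsub, card_range, Nat.cast_sub]
    have := card_le_card hsub
    rwa [card_range] at this
  have hcard0 : (0 : ℝ) ≤ (p : ℝ) - #Ω := by
    rw [← hcard]
    positivity
  have hCS : ‖expSum s f γ‖ ^ 2 ≤ ((p : ℝ) - #Ω) * ∑ h ∈ range p, ‖Z h‖ ^ 2 := by
    rw [hsum2]
    calc ‖∑ h ∈ range p \ Ω, Z h‖ ^ 2 ≤ (∑ h ∈ range p \ Ω, ‖Z h‖) ^ 2 := by
          gcongr
          exact norm_sum_le _ _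
      _ ≤ #(range p \ Ω) * ∑ h ∈ range p \ Ω, ‖Z h‖ ^ 2 := sq_sum_le_card_mul_sum_sq
      _ ≤ ((p : ℝ) - #Ω) * ∑ h ∈ range p, ‖Z h‖ ^ 2 := by
          rw [hcard]
          gcongr
          exact sdiff_subset
  have h0 : (0 : UnitAddCircle) ∉ ordSet p := by
    rw [mem_ordSet]
    rintro ⟨_, h⟩
    rw [addOrderOf_zero] at h
    exact hp.one_lt.ne h
  rw [sum_insert h0, add_zero] at hpars
  have hpp : (0 : ℝ) < p := by exact_mod_cast hp.pos
  have h1 : (p : ℝ) * ‖expSum s f γ‖ ^ 2 ≤ ((p : ℝ) - #Ω) *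
      (‖expSum s f γ‖ ^ 2 + ∑ x ∈ ordSet p, ‖expSum s f (γ + x)‖ ^ 2) := by
    rw [hpars]
    calc (p : ℝ) * ‖expSum s f γ‖ ^ 2
        ≤ p * (((p : ℝ) - #Ω) * ∑ h ∈ range p, ‖Z h‖ ^ 2) := by gcongr
      _ = _ := by ring
  linarith

end RD69
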