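import Pool.Agent.LibRD69.M1

/-!
ROW M2.  Montgomery's inequality for a squarefree modulus.
PROOF.  Copy the proof of `LSieve.mont` (LibLargeSieve/Sifted.lean) with `mont1` in place of
`mont_prime`: for `m = p * m'` one has `hw Ω m = #Ω_p/(p - #Ω_p) * hw Ω m'`
(`Nat.primeFactors_mul`, coprime), and `mont1` divided by `p - #Ω_p > 0`.
-/

open Finset LSieve

namespace RD69

theorem mont2 (Ω : ℕ → Finset ℕ) (s : Finset ℤ) (f : ℤ → ℂ) (m : ℕ) (hm : Squarefree m)
    (hΩ : ∀ p ∈ m.primeFactors, (∀ h ∈ Ω p, h < p) ∧ #(Ω p) < p)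
    (hf : ∀ p ∈ m.primeFactors, ∀ n ∈ s, f n ≠ 0 → ∀ h ∈ Ω p, ¬ n ≡ (h : ℤ) [ZMOD p])
    (γ : UnitAddCircle) :
    hw Ω m * ‖expSum s f γ‖ ^ 2 ≤ ∑ x ∈ ordSet m, ‖expSum s f (γ + x)‖ ^ 2 := by
  classical
  induction m using Nat.strong_induction_on generalizing γ with
  | _ m ih =>
    have hm0 : m ≠ 0 := hm.ne_zero
    rcases eq_or_ne m 1 with rfl | hm1
    · have : ordSet 1 = {0} := by
        ext x
        rw [mem_ordSet, mem_singleton, AddMonoid.addOrderOf_eq_one_iff]
        simp
      rw [this]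
      simp [hw]
    · set p := m.minFac with hp
      have hpp : p.Prime := Nat.minFac_prime hm1
      obtain ⟨m', hm'⟩ := Nat.minFac_dvd m
      rw [← hp] at hm'
      have hcop : p.Coprime m' := by
        rw [hm'] at hm
        exact Nat.coprime_of_squarefree_mul hm
      have hm'0 : 0 < m' := Nat.pos_of_ne_zero (by rintro rfl; simp at hm'; exact hm0 hm')
      have hlt : m' < m := by
        rw [hm']
        exact (Nat.lt_mul_iff_one_lt_left hm'0).2 hpp.one_lt
      have hsq : Squarefree m' := by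
        rw [hm'] at hm
        exact hm.of_mul_right
      have hpf : m.primeFactors = insert p m'.primeFactors := by
        rw [hm', Nat.primeFactors_mul hpp.ne_zero hm'0.ne', hpp.primeFactors]
        rfl
      have hpn : p ∉ m'.primeFactors := fun h =>
        hpp.one_lt.ne' (Nat.eq_one_of_dvd_coprimes hcop dvd_rfl (Nat.dvd_of_mem_primeFactors h))
      have hpm : p ∈ m.primeFactors := by
        rw [hpf]
        exact mem_insert_self _ _
      have hsub : ∀ q ∈ m'.primeFactors, q ∈ m.primeFactors := fun q hq => by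
        rw [hpf]
        exact mem_insert_of_mem hq
      have h1 := ih m' hlt hsq (fun q hq => hΩ q (hsub q hq)) (fun q hq => hf q (hsub q hq)) γ
      obtain ⟨hΩ1, hΩ2⟩ := hΩ p hpm
      have hpos : (0 : ℝ) < (p : ℝ) - #(Ω p) := by
        have : (#(Ω p) : ℝ) < p := by exact_mod_cast hΩ2
        linarith
      have h2 : ∀ y ∈ ordSet m', (#(Ω p) : ℝ) / ((p : ℝ) - #(Ω p)) * ‖expSum s f (γ + y)‖ ^ 2 ≤
          ∑ x ∈ ordSet p, ‖expSum s f (γ + y + x)‖ ^ 2 := by
        intro y _
        have h := mont1 hpp s f (Ω p) hΩ1 (fun n hn h0 => hf p hpm n hn h0) (γ + y)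
        rw [div_mul_eq_mul_div, div_le_iff₀ hpos, mul_comm _ ((p : ℝ) - _)]
        exact h
      have h3 : ∑ y ∈ ordSet m', ∑ x ∈ ordSet p, ‖expSum s f (γ + y + x)‖ ^ 2 ≤
          ∑ z ∈ ordSet m, ‖expSum s f (γ + z)‖ ^ 2 := by
        rw [← sum_product' (f := fun y x => ‖expSum s f (γ + y + x)‖ ^ 2)]
        have : ∑ q ∈ ordSet m' ×ˢ ordSet p, ‖expSum s f (γ + q.1 + q.2)‖ ^ 2 =
            ∑ z ∈ (ordSet m' ×ˢ ordSet p).image (fun q => q.1 + q.2),
              ‖expSum s f (γ + z)‖ ^ 2 := by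
          rw [sum_image]
          · refine sum_congr rfl fun q _ => ?_
            rw [add_assoc]
          · rintro ⟨y, x⟩ hq ⟨y', x'⟩ hq' heq
            simp only [coe_product, Set.mem_prod, mem_coe, mem_ordSet] at hq hq'
            simp only at heq
            have e1 : y - y' = x' - x := by
              rw [sub_eq_sub_iff_add_eq_add, heq]; abel
            have e2 : m' • (y - y') = 0 := by
              rw [smul_sub]
              have a1 : m' • y = 0 := by rw [← hq.1.2]; exact addOrderOf_nsmul_eq_zero y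
              have a2 : m' • y' = 0 := by rw [← hq'.1.2]; exact addOrderOf_nsmul_eq_zero y'
              rw [a1, a2, sub_zero]
            have e3 : p • (y - y') = 0 := by
              rw [e1, smul_sub]
              have a1 : p • x = 0 := by
                nth_rewrite 1 [← hq.2.2]; exact addOrderOf_nsmul_eq_zero x
              have a2 : p • x' = 0 := by
                nth_rewrite 1 [← hq'.2.2]; exact addOrderOf_nsmul_eq_zero x'
              rw [a1, a2, sub_zero]
            have e4 : addOrderOf (y - y') = 1 :=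
              Nat.eq_one_of_dvd_coprimes hcop (addOrderOf_dvd_of_nsmul_eq_zero e3)
                (addOrderOf_dvd_of_nsmul_eq_zero e2)
            have e5 : y - y' = 0 := AddMonoid.addOrderOf_eq_one_iff.1 e4
            have e6 : x' - x = 0 := by rw [← e1, e5]
            rw [sub_eq_zero] at e5 e6
            simp [e5, e6]
        rw [this]
        refine sum_le_sum_of_subset_of_nonneg ?_ (fun _ _ _ => by positivity)
        intro z hz
        simp only [mem_image, mem_product, mem_ordSet, Prod.exists] at hz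
        obtain ⟨y, x, ⟨⟨_, hy⟩, ⟨_, hx⟩⟩, rfl⟩ := hz
        rw [mem_ordSet]
        refine ⟨Nat.pos_of_ne_zero hm0, ?_⟩
        rw [(AddCommute.all y x).addOrderOf_add_eq_mul_addOrderOf_of_coprime
          (by rw [hx, hy]; exact hcop.symm), hx, hy, mul_comm]
        exact hm'.symm
      have hhw : hw Ω m = (#(Ω p) : ℝ) / ((p : ℝ) - #(Ω p)) * hw Ω m' := by
        unfold hw
        rw [hpf, prod_insert hpn]
      have hc : 0 ≤ (#(Ω p) : ℝ) / ((p : ℝ) - #(Ω p)) := div_nonneg (Nat.cast_nonneg _) hpos.le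
      calc hw Ω m * ‖expSum s f γ‖ ^ 2
          = (#(Ω p) : ℝ) / ((p : ℝ) - #(Ω p)) * (hw Ω m' * ‖expSum s f γ‖ ^ 2) := by
            rw [hhw, mul_assoc]
        _ ≤ (#(Ω p) : ℝ) / ((p : ℝ) - #(Ω p)) * ∑ y ∈ ordSet m', ‖expSum s f (γ + y)‖ ^ 2 :=
            mul_le_mul_of_nonneg_left h1 hc
        _ = ∑ y ∈ ordSet m', (#(Ω p) : ℝ) / ((p : ℝ) - #(Ω p)) * ‖expSum s f (γ + y)‖ ^ 2 :=
            mul_sum _ _ _
        _ ≤ ∑ y ∈ ordSet m', ∑ x ∈ ordSet p, ‖expSum s f (γ + y + x)‖ ^ 2 := sum_le_sum h2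
        _ ≤ _ := h3

end RD69
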