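import Pool.Agent.LibRD69.M2

/-!
ROW M3.  Arithmetic large sieve (constant 9).
PROOF.  `f = 1`, `γ = 0`: `expSum s f 0 = #s`.  Sum `mont2` over `m ∈ M`; the sets `ordSet m` are
disjoint; apply `LSieve.large_sieve` to `X = M.biUnion ordSet` (`ι = UnitAddCircle`, `x = id`,
`H = N`, `R = 1`): two different points of `X` are at distance `≥ 1/(m m') ≥ 1/Q^2 ≥ 1/N`
(`LSieve.norm_ge_of_nsmul_eq_zero`), so the filter is contained in `{x i}`.  Get
`(∑ hw) * #s^2 ≤ 9 * N * #s`; divide by `#s` (if `s` is empty the claim is trivial).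
-/

open Finset LSieve

namespace RD69

theorem als (Ω : ℕ → Finset ℕ) (M : Finset ℕ) (Q N : ℕ) (hN : 0 < N) (hQ : Q ^ 2 ≤ N)
    (hM : ∀ m ∈ M, Squarefree m ∧ m ≤ Q ∧
      ∀ p ∈ m.primeFactors, (∀ h ∈ Ω p, h < p) ∧ #(Ω p) < p)
    (A : ℤ) (s : Finset ℤ) (hs : s ⊆ Ico A (A + N))
    (hf : ∀ m ∈ M, ∀ p ∈ m.primeFactors, ∀ n ∈ s, ∀ h ∈ Ω p, ¬ n ≡ (h : ℤ) [ZMOD p]) :
    (∑ m ∈ M, hw Ω m) * #s ≤ 9 * N := by
  classical
  rcases s.eq_empty_or_nonempty with h0 | hne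
  · rw [h0]
    simp
  have hN' : (0 : ℝ) < N := by exact_mod_cast hN
  have hs0 : (0 : ℝ) < #s := by exact_mod_cast hne.card_pos
  set f : ℤ → ℂ := fun _ => 1 with hfdef
  have hexp : ‖expSum s f 0‖ = #s := by
    unfold expSum
    simp [hfdef]
  set X : Finset UnitAddCircle := M.biUnion ordSet with hX
  have hdisj : ∀ m ∈ M, ∀ m' ∈ M, m ≠ m' → Disjoint (ordSet m) (ordSet m') := by
    intro m _ m' _ hne
    rw [Finset.disjoint_left]
    intro x h1 h2
    rw [mem_ordSet] at h1 h2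
    exact hne (h1.2.symm.trans h2.2)
  have hlow : (∑ m ∈ M, hw Ω m) * (#s : ℝ) ^ 2 ≤ ∑ x ∈ X, ‖expSum s f x‖ ^ 2 := by
    rw [hX, sum_biUnion hdisj, sum_mul]
    refine sum_le_sum fun m hm => ?_
    have h1 := mont2 Ω s f m (hM m hm).1 (hM m hm).2.2
      (fun p hp n hn _ h hh => hf m hm p hp n hn h hh) 0
    rw [hexp] at h1
    refine h1.trans (le_of_eq ?_)
    refine sum_congr rfl fun x _ => ?_
    rw [zero_add]
  have hup : ∑ x ∈ X, ‖expSum s f x‖ ^ 2 ≤ 9 * (1 : ℕ) * N * ∑ n ∈ s, ‖f n‖ ^ 2 := by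
    refine large_sieve X (fun x => x) N 1 hN ?_ A s hs f
    intro i hi
    rw [card_le_one]
    have key : ∀ j ∈ X.filter (fun j => ‖j - i‖ < 1 / (N : ℝ)), j = i := by
      intro j hj
      rw [mem_filter] at hj
      obtain ⟨hjX, hlt⟩ := hj
      rw [hX, mem_biUnion] at hjX hi
      obtain ⟨m, hm, hjm⟩ := hjX
      obtain ⟨m', hm', him⟩ := hi
      rw [mem_ordSet] at hjm him
      by_contra hji
      have hu : j - i ≠ 0 := sub_ne_zero.2 hji
      have hz : (m * m') • (j - i) = 0 := by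
        rw [smul_sub]
        have a1 : (m * m') • j = 0 :=
          addOrderOf_dvd_iff_nsmul_eq_zero.1 (by rw [hjm.2]; exact dvd_mul_right _ _)
        have a2 : (m * m') • i = 0 :=
          addOrderOf_dvd_iff_nsmul_eq_zero.1 (by rw [him.2]; exact dvd_mul_left _ _)
        rw [a1, a2, sub_zero]
      have h1 := norm_ge_of_nsmul_eq_zero (Nat.mul_pos hjm.1 him.1) hz hu
      have h2 : ((m * m' : ℕ) : ℝ) ≤ N := by
        have h3 : m * m' ≤ Q ^ 2 := by
          rw [pow_two]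
          exact Nat.mul_le_mul (hM m hm).2.1 (hM m' hm').2.1
        exact_mod_cast h3.trans hQ
      have h4 : ((m * m' : ℕ) : ℝ) * ‖j - i‖ ≤ N * ‖j - i‖ := by gcongr
      have h5 : (N : ℝ) * ‖j - i‖ < 1 := by
        rw [lt_div_iff₀ hN'] at hlt
        linarith [mul_comm (N : ℝ) ‖j - i‖]
      linarith
    intro a ha b hb
    rw [key a ha, key b hb]
  have hsum : ∑ n ∈ s, ‖f n‖ ^ 2 = #s := by
    simp [hfdef]
  rw [hsum] at hup
  have hall : ((∑ m ∈ M, hw Ω m) * #s) * #s ≤ (9 * N) * #s := by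
    have h := hlow.trans hup
    push_cast at h
    nlinarith
  exact le_of_mul_le_mul_right hall hs0

end RD69
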