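import Pool.Agent.LibMaier.Mertens
import Pool.Agent.LibRD69.Defs

/-!
ROW ME.  Mertens product over the primes in `[u, v]`.
PROOF.  From `Pool.Agent.LibMaier.mertens_third`: there are `0 < c < C` with
`c ≤ (∏_{p ≤ n} (1 - 1/p)) * log n ≤ C` for all `n ≥ 2` (as in LibBP4/S03.lean, `S03_nat`, which you may
copy).  If `v < u` the product is `1` and `log v ≤ log u`.  If `u ≤ v`: the product over `[u, v]` times the product over
`p ≤ u - 1` is the product over `p ≤ v`; for `u ≥ 3` use the bounds at `u - 1` and `v`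
(`log u ≥ log (u-1)`), for `u = 2` the second product is empty.
-/

open Finset

namespace RD69

theorem ME_pos (S : Finset ℕ) : 0 < ∏ p ∈ S.filter Nat.Prime, (1 - 1 / (p : ℝ)) := by
  refine prod_pos fun p hp => ?_
  have h1 : p.Prime := (mem_filter.1 hp).2
  have h2 : (2 : ℝ) ≤ p := by exact_mod_cast h1.two_le
  have h3 : 1 / (p : ℝ) ≤ 1 / 2 := one_div_le_one_div_of_le (by norm_num) h2
  linarith

theorem ME_nat : ∃ c C : ℝ, 0 < c ∧ 0 < C ∧ ∀ n : ℕ, 2 ≤ n →
    c ≤ (∏ p ∈ (range (n + 1)).filter Nat.Prime, (1 - 1 / (p : ℝ))) * Real.log n ∧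
    (∏ p ∈ (range (n + 1)).filter Nat.Prime, (1 - 1 / (p : ℝ))) * Real.log n ≤ C := by
  set f : ℕ → ℝ := fun n =>
    (∏ p ∈ (range (n + 1)).filter Nat.Prime, (1 - 1 / (p : ℝ))) * Real.log n with hf
  set L : ℝ := Real.exp (-Real.eulerMascheroniConstant) with hL
  have hL0 : 0 < L := Real.exp_pos _
  have hlim : Filter.Tendsto f Filter.atTop (nhds L) := Pool.Agent.LibMaier.mertens_third
  have hpos : ∀ n : ℕ, 2 ≤ n → 0 < f n := by
    intro n hn
    have h1 : (1 : ℝ) < n := by exact_mod_cast hn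
    exact mul_pos (ME_pos _) (Real.log_pos h1)
  have e1 : ∀ᶠ n in Filter.atTop, L / 2 < f n := hlim.eventually (lt_mem_nhds (by linarith))
  have e2 : ∀ᶠ n in Filter.atTop, f n < 2 * L := hlim.eventually (gt_mem_nhds (by linarith))
  obtain ⟨N, hN⟩ := Filter.eventually_atTop.1 (e1.and e2)
  have hfin : ∀ N : ℕ, ∃ c C : ℝ, 0 < c ∧ 0 < C ∧ ∀ n, 2 ≤ n → n < N → c ≤ f n ∧ f n ≤ C := by
    intro N
    induction N with
    | zero => exact ⟨1, 1, one_pos, one_pos, fun n _ h => absurd h (Nat.not_lt_zero n)⟩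
    | succ N ih =>
      obtain ⟨c, C, hc, hC, h⟩ := ih
      by_cases h2 : 2 ≤ N
      · refine ⟨min c (f N), max C (f N), lt_min hc (hpos N h2), lt_max_of_lt_left hC, ?_⟩
        intro n hn hnN
        rcases Nat.lt_succ_iff_lt_or_eq.1 hnN with h3 | h3
        · exact ⟨(min_le_left _ _).trans (h n hn h3).1, (h n hn h3).2.trans (le_max_left _ _)⟩
        · subst h3
          exact ⟨min_le_right _ _, le_max_right _ _⟩
      · refine ⟨c, C, hc, hC, ?_⟩
        intro n hn hnN
        exact absurd hn (by omega)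
  obtain ⟨c, C, hc, hC, h⟩ := hfin N
  refine ⟨min c (L / 2), max C (2 * L), lt_min hc (by linarith), lt_max_of_lt_left hC, ?_⟩
  intro n hn
  by_cases h3 : n < N
  · exact ⟨(min_le_left _ _).trans (h n hn h3).1, (h n hn h3).2.trans (le_max_left _ _)⟩
  · have h4 := hN n (not_lt.1 h3)
    exact ⟨(min_le_right _ _).trans h4.1.le, h4.2.le.trans (le_max_right _ _)⟩

theorem ME_split {u v : ℕ} (huv : u ≤ v) :
    (∏ p ∈ (range u).filter Nat.Prime, (1 - 1 / (p : ℝ))) * ∏ p ∈ pr u v, (1 - 1 / (p : ℝ)) =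
      ∏ p ∈ (range (v + 1)).filter Nat.Prime, (1 - 1 / (p : ℝ)) := by
  rw [← prod_union]
  · refine prod_congr ?_ fun _ _ => rfl
    ext p
    simp only [pr, mem_union, mem_filter, mem_range, mem_Icc]
    constructor
    · rintro (⟨h1, h2⟩ | ⟨h1, h2⟩)
      · exact ⟨by omega, h2⟩
      · exact ⟨by omega, h2⟩
    · rintro ⟨h1, h2⟩
      by_cases h3 : p < u
      · exact Or.inl ⟨h3, h2⟩
      · exact Or.inr ⟨⟨by omega, by omega⟩, h2⟩
  · rw [disjoint_left]
    intro p h1 h2
    simp only [pr, mem_filter, mem_range, mem_Icc] at h1 h2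
    omega

theorem mertens_prod : ∃ C : ℝ, 1 ≤ C ∧ ∀ u v : ℕ, 2 ≤ u → 2 ≤ v →
    ∏ p ∈ pr u v, (1 - 1 / (p : ℝ)) ≤ C * Real.log u / Real.log v := by
  obtain ⟨c, C, hc, hC, h⟩ := ME_nat
  have hl2 : 0 < Real.log 2 := Real.log_pos (by norm_num)
  refine ⟨max 1 (max (C / c) (C / Real.log 2)), le_max_left _ _, fun u v hu hv => ?_⟩
  set D := max 1 (max (C / c) (C / Real.log 2)) with hD
  have hD1 : 1 ≤ D := le_max_left _ _
  have hD2 : C / c ≤ D := (le_max_left _ _).trans (le_max_right _ _)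
  have hD3 : C / Real.log 2 ≤ D := (le_max_right _ _).trans (le_max_right _ _)
  have hu2 : (2 : ℝ) ≤ u := by exact_mod_cast hu
  have hv2 : (2 : ℝ) ≤ v := by exact_mod_cast hv
  have hlu : 0 < Real.log u := Real.log_pos (by linarith)
  have hlv : 0 < Real.log v := Real.log_pos (by linarith)
  rcases lt_or_ge v u with hvu | huv
  · have h1 : pr u v = ∅ := by
      rw [pr, Icc_eq_empty (by omega), filter_empty]
    rw [h1, prod_empty, le_div_iff₀ hlv, one_mul]
    have h2 : Real.log v ≤ Real.log u := Real.log_le_log (by linarith) (by exact_mod_cast hvu.le)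
    nlinarith
  · have h1 := ME_split huv
    have h2 := (h v hv).2
    rw [le_div_iff₀ hlv]
    rcases Nat.eq_or_lt_of_le hu with h3 | h3
    · have h4 : (range u).filter Nat.Prime = ∅ := by
        rw [← h3]
        decide
      rw [h4, prod_empty, one_mul] at h1
      rw [h1]
      refine h2.trans ?_
      rw [div_le_iff₀ hl2] at hD3
      rw [← h3]
      exact_mod_cast hD3
    · obtain ⟨w, rfl⟩ : ∃ w, u = w + 1 := ⟨u - 1, by omega⟩
      have hw : 2 ≤ w := by omega
      have h4 := (h w hw).1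
      have hw2 : (2 : ℝ) ≤ w := by exact_mod_cast hw
      have hlw : 0 < Real.log w := Real.log_pos (by linarith)
      have hle : Real.log w ≤ Real.log ((w + 1 : ℕ) : ℝ) :=
        Real.log_le_log (by linarith) (by push_cast; linarith)
      have hA := ME_pos (range (w + 1))
      have hB := ME_pos (Icc (w + 1) v)
      set A := ∏ p ∈ (range (w + 1)).filter Nat.Prime, (1 - 1 / (p : ℝ)) with hAdef
      have hB' : 0 < ∏ p ∈ pr (w + 1) v, (1 - 1 / (p : ℝ)) := hB
      set B := ∏ p ∈ pr (w + 1) v, (1 - 1 / (p : ℝ)) with hBdef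
      rw [← h1] at h2
      rw [div_le_iff₀ hc] at hD2
      -- `c B log v ≤ A log w B log v ≤ C log w`
      have h5 : c * (B * Real.log v) ≤ c * (D * Real.log ((w + 1 : ℕ) : ℝ)) := by
        calc c * (B * Real.log v) ≤ (A * Real.log w) * (B * Real.log v) := by
              gcongr
          _ = (A * B * Real.log v) * Real.log w := by ring
          _ ≤ C * Real.log w := by gcongr
          _ ≤ (D * c) * Real.log ((w + 1 : ℕ) : ℝ) := by
              have h6 : 0 ≤ D * c := by nlinarith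
              exact mul_le_mul hD2 hle hlw.le h6
          _ = _ := by ring
      exact le_of_mul_le_mul_left h5 hc

end RD69
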