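import Pool.Agent.LibRD69.FM

/-!
ROW PM.  The `r`-th moment.
PROOF.  `S^r ≤ 2^r * r! * (S choose r) + (2 r)^r`: if `S < 2 r` clear; if `S ≥ 2 r` then
`r! * choose S r = descFactorial ≥ (S + 1 - r)^r ≥ (S/2)^r` (`Nat.pow_sub_le_descFactorial`).  Sum with `fac_moment`:
`18 x (2μ)^r + x (2r)^r ≤ 18 x (2μ + 2r)^r` (`add_pow_le_pow_add` type inequality), `μ = C y log(2r)/log z`; new constant `2 C`.
-/

open Finset

namespace RD69

theorem PM_point (S r : ℕ) (hr : 1 ≤ r) :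
    (S : ℝ) ^ r ≤ 2 ^ r * (r.factorial * (S.choose r : ℝ)) + (2 * r) ^ r := by
  rcases lt_or_ge S (2 * r) with h | h
  · have h1 : (S : ℝ) ≤ 2 * r := by exact_mod_cast h.le
    have h2 : (S : ℝ) ^ r ≤ (2 * r) ^ r := pow_le_pow_left₀ (by positivity) h1 r
    have h3 : (0:ℝ) ≤ 2 ^ r * (r.factorial * (S.choose r : ℝ)) := by positivity
    linarith
  · have h1 : (S + 1 - r) ^ r ≤ S.descFactorial r := Nat.pow_sub_le_descFactorial S r
    rw [Nat.descFactorial_eq_factorial_mul_choose] at h1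
    have h2 : S ≤ 2 * (S + 1 - r) := by omega
    have h3 : S ^ r ≤ 2 ^ r * (r.factorial * S.choose r) := by
      calc S ^ r ≤ (2 * (S + 1 - r)) ^ r := Nat.pow_le_pow_left h2 r
        _ = 2 ^ r * (S + 1 - r) ^ r := by rw [mul_pow]
        _ ≤ _ := Nat.mul_le_mul_left _ h1
    have h4 : (S : ℝ) ^ r ≤ 2 ^ r * (r.factorial * (S.choose r : ℝ)) := by exact_mod_cast h3
    have h5 : (0:ℝ) ≤ (2 * r) ^ r := by positivity
    linarith

theorem pow_moment : ∃ (C : ℝ) (C₀ : ℕ), 1 ≤ C ∧ 1 ≤ C₀ ∧ ∀ (r x y z a : ℕ), 1 ≤ r →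
    2 * r ≤ y → y ≤ z → z ^ (C₀ * r) ≤ x →
    (∑ n ∈ Icc 1 x, (#(sv (2 * r) z (Ico a (a + y)) n) : ℝ) ^ r) ≤
      18 * x * (C * y * Real.log (2 * r) / Real.log z + 2 * r) ^ r := by
  obtain ⟨C, C₀, hC, hC₀, hfac⟩ := fac_moment
  refine ⟨2 * C, C₀, by linarith, hC₀, ?_⟩
  intro r x y z a hr hry hyz hzx
  have hy2 : 2 ≤ y := by omega
  have hz2 : (2:ℝ) ≤ z := by exact_mod_cast (by omega : 2 ≤ z)
  have hlogz : 0 < Real.log z := Real.log_pos (by linarith)
  have hrR : (1:ℝ) ≤ r := by exact_mod_cast hr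
  have hlog2r : 0 ≤ Real.log (2 * r) := Real.log_nonneg (by linarith)
  have h := hfac r x y z a hr hry hyz hzx
  set μ : ℝ := C * y * Real.log (2 * r) / Real.log z with hμ
  have hμ0 : 0 ≤ μ := by positivity
  have hfact : (0:ℝ) < r.factorial := by exact_mod_cast r.factorial_pos
  calc (∑ n ∈ Icc 1 x, (#(sv (2 * r) z (Ico a (a + y)) n) : ℝ) ^ r)
      ≤ ∑ n ∈ Icc 1 x, (2 ^ r * (r.factorial *
          ((#(sv (2 * r) z (Ico a (a + y)) n)).choose r : ℝ)) + (2 * r) ^ r) :=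
        Finset.sum_le_sum fun n _ => PM_point _ r hr
    _ = 2 ^ r * (r.factorial * ∑ n ∈ Icc 1 x,
          ((#(sv (2 * r) z (Ico a (a + y)) n)).choose r : ℝ)) + x * (2 * r) ^ r := by
        rw [Finset.sum_add_distrib, ← Finset.mul_sum, ← Finset.mul_sum]
        simp
    _ ≤ 2 ^ r * (r.factorial * (18 * x * (μ ^ r / r.factorial))) + x * (2 * r) ^ r := by
        have := mul_le_mul_of_nonneg_left (mul_le_mul_of_nonneg_left h hfact.le)
          (by positivity : (0:ℝ) ≤ 2 ^ r)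
        linarith
    _ = 18 * x * (2 * μ) ^ r + x * (2 * r) ^ r := by
        rw [mul_pow 2 μ]
        field_simp
    _ ≤ 18 * x * ((2 * μ) ^ r + (2 * r) ^ r) := by
        have : (0:ℝ) ≤ x * (2 * r) ^ r := by positivity
        linarith
    _ ≤ 18 * x * (2 * μ + 2 * r) ^ r := by
        apply mul_le_mul_of_nonneg_left _ (by positivity)
        exact pow_add_pow_le (by positivity) (by positivity) (by omega)
    _ = 18 * x * (2 * C * y * Real.log (2 * r) / Real.log z + 2 * r) ^ r := by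
        rw [hμ]; congr 2; ring

end RD69
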