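import Pool.Agent.LibRD69.B2
import Pool.Agent.LibRD69.AB

/-!
ROW PW.  Pointwise bound on a range of distances.  `dist n` = the set of the distances `n - p`, `p < n` prime.
PROOF.  `κ > 2`: `bt_sharp` with `δ = (κ - 2)/2` gives `#{p prime : n - j ≤ p < n} ≤ (2+δ) j / log j` for `j ≥ y₀`
(`Ico (n-j) (n-j+j)`, if `j ≤ n`; if `j > n` use the interval `Ico 0 j`); this is the hypothesis of `abel_tail` for
`E = dist n`.
-/

open Finset

namespace RD69

/-- The distances from `n` to the smaller primes. -/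
def dist (n : ℕ) : Finset ℕ := (range n).filter fun i => 1 ≤ i ∧ (n - i).Prime

theorem rd_eq (n : ℕ) : rd n = ∑ i ∈ dist n, 1 / (i : ℝ) := by
  unfold rd dist
  refine Finset.sum_nbij' (fun p => n - p) (fun i => n - i) ?_ ?_ ?_ ?_ ?_
  · intro p hp
    rw [mem_filter, mem_range] at hp
    have h2 := hp.2.two_le
    rw [mem_filter, mem_range]
    refine ⟨by omega, by omega, ?_⟩
    have h3 : n - (n - p) = p := by omega
    rw [h3]
    exact hp.2
  · intro i hi
    rw [mem_filter, mem_range] at hi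
    rw [mem_filter, mem_range]
    exact ⟨by omega, hi.2.2⟩
  · intro p hp
    rw [mem_filter, mem_range] at hp
    show n - (n - p) = p
    omega
  · intro i hi
    rw [mem_filter, mem_range] at hi
    show n - (n - i) = i
    omega
  · intro p hp
    rw [mem_filter, mem_range] at hp
    show 1 / ((n : ℝ) - p) = 1 / ((n - p : ℕ) : ℝ)
    rw [Nat.cast_sub hp.1.le]

theorem pw_range (κ : ℝ) (hκ : 2 < κ) : ∃ K : ℝ, 0 < K ∧ ∀ n U V : ℕ, 2 ≤ U → U ≤ V →
    ∑ i ∈ (dist n).filter (fun i => U ≤ i ∧ i < V), 1 / (i : ℝ) ≤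
      κ * (Real.log (Real.log V) - Real.log (Real.log U)) + K := by
  obtain ⟨y₀, hy₀, h⟩ := bt_sharp (κ - 2) (by linarith)
  obtain ⟨K, hK, h1⟩ := abel_tail κ (by linarith) y₀ hy₀
  refine ⟨K, hK, fun n U V hU hV => h1 (dist n) (fun j hj => ?_) U V hU hV⟩
  have h2 := h j hj (n - j)
  have h3 : 2 + (κ - 2) = κ := by ring
  rw [h3] at h2
  refine le_trans ?_ h2
  have h4 : #((dist n).filter fun i => 1 ≤ i ∧ i ≤ j) ≤
      #((Ico (n - j) (n - j + j)).filter Nat.Prime) := by
    refine Finset.card_le_card_of_injOn (fun i => n - i) ?_ ?_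
    · intro i hi
      have hi' := Finset.mem_coe.1 hi
      rw [mem_filter] at hi'
      obtain ⟨h5, h6, h7⟩ := hi'
      unfold dist at h5
      rw [mem_filter, mem_range] at h5
      have h8 : n - i ∈ (Ico (n - j) (n - j + j)).filter Nat.Prime := by
        rw [mem_filter, mem_Ico]
        exact ⟨⟨by omega, by omega⟩, h5.2.2⟩
      exact Finset.mem_coe.2 h8
    · intro i hi i' hi' heq
      have hi1 := Finset.mem_coe.1 hi
      have hi2 := Finset.mem_coe.1 hi'
      unfold dist at hi1 hi2
      rw [mem_filter, mem_filter, mem_range] at hi1 hi2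
      have heq' : n - i = n - i' := heq
      omega
  exact_mod_cast h4

end RD69
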