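import Pool.Agent.LibRD69.SU
import Pool.Agent.LibRD69.ME

/-!
ROW RI.  Integers in an interval of length `y` without prime factors in `[u, y]`.
PROOF.  `C₁` from `sieve_ub`, used with `r = 1`, `N = y`, `Ω p = {0}`, `P = pr u z` (primes in `[u, z]`),
`z` = the largest natural number with `z ^ C₁ ≤ y` (e.g. `Nat.findGreatest`).  If `z ≥ 2`: the count is
`≤ 18 y ∏_{p ∈ pr u z} (1 - 1/p) ≤ 18 C y log u / log z` and `y < (z+1)^C₁ ≤ z^(2 C₁)`, so
`log z ≥ log y / (2 C₁)`.  If `z < 2`: `y < 2^C₁` and the trivial bound `y` is enough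
(`log y ≤ C₁ log 2 ≤ C₁ log u`).
-/

open Finset LSieve

namespace RD69

theorem RI_root (C₁ y : ℕ) (hC₁ : 1 ≤ C₁) :
    ∃ z : ℕ, z ≤ y ∧ z ^ C₁ ≤ y ∧ y < (z + 1) ^ C₁ := by
  refine ⟨Nat.findGreatest (fun z => z ^ C₁ ≤ y) y, Nat.findGreatest_le y, ?_, ?_⟩
  · exact Nat.findGreatest_spec (P := fun z => z ^ C₁ ≤ y) (Nat.zero_le y) (by
      rw [zero_pow (by omega)]
      exact Nat.zero_le y)
  · set z := Nat.findGreatest (fun z => z ^ C₁ ≤ y) y with hz
    by_cases h : z + 1 ≤ y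
    · have h1 := Nat.findGreatest_is_greatest (P := fun z => z ^ C₁ ≤ y) (n := y) (k := z + 1)
        (by rw [← hz]; exact Nat.lt_succ_self z) h
      omega
    · have h1 : z + 1 ≤ (z + 1) ^ C₁ := Nat.le_self_pow (by omega) _
      omega

theorem rough_int : ∃ C : ℝ, 1 ≤ C ∧ ∀ (u y : ℕ), 2 ≤ u → 2 ≤ y → ∀ A : ℤ,
    (#((Ico A (A + y)).filter fun n => ∀ p ∈ pr u y, ¬ (p : ℤ) ∣ n) : ℝ) ≤
      C * y * Real.log u / Real.log y := by
  obtain ⟨C₁, hC₁, hsv⟩ := sieve_ub
  obtain ⟨C₂, hC₂, hme⟩ := mertens_prod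
  have hC₁' : (1 : ℝ) ≤ C₁ := by exact_mod_cast hC₁
  have hCC : (1 : ℝ) ≤ C₁ * C₂ := by nlinarith
  refine ⟨36 * (C₁ * C₂), by linarith, fun u y hu hy A => ?_⟩
  set s := (Ico A (A + y)).filter fun n => ∀ p ∈ pr u y, ¬ (p : ℤ) ∣ n with hs
  have hu2 : (2 : ℝ) ≤ u := by exact_mod_cast hu
  have hy2 : (2 : ℝ) ≤ y := by exact_mod_cast hy
  have hlu : 0 < Real.log u := Real.log_pos (by linarith)
  have hly : 0 < Real.log y := Real.log_pos (by linarith)
  obtain ⟨z, hzy, hz1, hz2⟩ := RI_root C₁ y hC₁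
  rw [le_div_iff₀ hly]
  rcases lt_or_ge z 2 with hz | hz
  · -- trivial bound
    have h1 : y < 2 ^ C₁ := lt_of_lt_of_le hz2 (Nat.pow_le_pow_left (by omega) _)
    have h2 : Real.log y ≤ C₁ * Real.log 2 := by
      rw [← Real.log_pow]
      exact Real.log_le_log (by linarith) (by exact_mod_cast h1.le)
    have h3 : Real.log 2 ≤ Real.log u := Real.log_le_log (by norm_num) hu2
    have h4 : Real.log y ≤ C₁ * Real.log u :=
      h2.trans (mul_le_mul_of_nonneg_left h3 (by linarith))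
    have h5 : (#s : ℝ) ≤ y := by
      have h6 : #s ≤ #(Ico A (A + y)) := card_filter_le _ _
      rw [Int.card_Ico] at h6
      have h7 : (A + y - A).toNat = y := by simp
      rw [h7] at h6
      exact_mod_cast h6
    have h6 : (C₁ : ℝ) ≤ 36 * (C₁ * C₂) := by nlinarith
    calc (#s : ℝ) * Real.log y ≤ y * (C₁ * Real.log u) :=
          mul_le_mul h5 h4 hly.le (by positivity)
      _ ≤ y * ((36 * (C₁ * C₂)) * Real.log u) := by gcongr
      _ = _ := by ring
  · have hzR : (2 : ℝ) ≤ z := by exact_mod_cast hz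
    have hlz : 0 < Real.log z := Real.log_pos (by linarith)
    have hpr : ∀ p ∈ pr u z, p.Prime ∧ u ≤ p ∧ p ≤ z := by
      intro p hp
      rw [pr, mem_filter, mem_Icc] at hp
      exact ⟨hp.2, hp.1.1, hp.1.2⟩
    have h1 := hsv 1 z y (pr u z) (fun _ => {0}) le_rfl hz
      (fun p hp => ⟨(hpr p hp).1, by have := (hpr p hp).1.two_le; omega, (hpr p hp).2.2,
        by simp, fun h hh => by
          rw [mem_singleton] at hh
          rw [hh]
          exact (hpr p hp).1.pos⟩)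
      (by rw [mul_one]; exact hz1) A s (filter_subset _ _)
      (fun p hp n hn h hh => by
        rw [mem_singleton] at hh
        rw [hh]
        intro hmod
        rw [hs, mem_filter] at hn
        have hp' : p ∈ pr u y := by
          rw [pr, mem_filter, mem_Icc]
          exact ⟨⟨(hpr p hp).2.1, (hpr p hp).2.2.trans hzy⟩, (hpr p hp).1⟩
        apply hn.2 p hp'
        rw [Nat.cast_zero] at hmod
        exact Int.modEq_zero_iff_dvd.1 hmod)
    have h2 : ∏ p ∈ pr u z, (1 - (#(({0} : Finset ℕ)) : ℝ) / p) =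
        ∏ p ∈ pr u z, (1 - 1 / (p : ℝ)) := by
      refine prod_congr rfl fun p _ => ?_
      rw [card_singleton, Nat.cast_one]
    rw [h2] at h1
    have h3 := hme u z hu hz
    rw [le_div_iff₀ hlz] at h3
    have h4 : Real.log y ≤ 2 * C₁ * Real.log z := by
      have h5 : z + 1 ≤ z ^ 2 := by nlinarith
      have h6 : y ≤ z ^ (2 * C₁) := by
        rw [pow_mul]
        exact hz2.le.trans (Nat.pow_le_pow_left h5 _)
      have h7 : Real.log y ≤ Real.log ((z : ℝ) ^ (2 * C₁)) :=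
        Real.log_le_log (by linarith) (by exact_mod_cast h6)
      rw [Real.log_pow] at h7
      push_cast at h7
      exact h7
    have hP0 : 0 ≤ ∏ p ∈ pr u z, (1 - 1 / (p : ℝ)) := (ME_pos (Icc u z)).le
    calc (#s : ℝ) * Real.log y
        ≤ (18 * y * ∏ p ∈ pr u z, (1 - 1 / (p : ℝ))) * (2 * C₁ * Real.log z) :=
          mul_le_mul h1 h4 hly.le (by positivity)
      _ = 36 * C₁ * y * ((∏ p ∈ pr u z, (1 - 1 / (p : ℝ))) * Real.log z) := by ring
      _ ≤ 36 * C₁ * y * (C₂ * Real.log u) := by gcongr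
      _ = _ := by ring

end RD69
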